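import Mathlib

/-! Formal sums of words over `ZMod 2`, paired with cochains (functions on words). -/

namespace Pool.Agent.Helper12.LC

/-- coefficients -/
abbrev F2 : Type := ZMod 2

theorem self_add (a : F2) : a + a = 0 := CharTwo.add_self_eq_zero a

section pairing
variable {A B : Type*}

/-- pairing of a formal sum (a list) with a function -/
def pr (c : List A) (ψ : A → F2) : F2 := (c.map ψ).sum

@[simp] theorem pr_nil (ψ : A → F2) : pr [] ψ = 0 := rfl
@[simp] theorem pr_cons (a : A) (c : List A) (ψ : A → F2) : pr (a :: c) ψ = ψ a + pr c ψ := by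
  simp [pr]
@[simp] theorem pr_append (c c' : List A) (ψ : A → F2) : pr (c ++ c') ψ = pr c ψ + pr c' ψ := by
  simp [pr]
@[simp] theorem pr_map (f : B → A) (c : List B) (ψ : A → F2) :
    pr (c.map f) ψ = pr c (fun b => ψ (f b)) := by
  simp [pr, Function.comp_def]
@[simp] theorem pr_flatMap (f : B → List A) (c : List B) (ψ : A → F2) :
    pr (c.flatMap f) ψ = pr c (fun b => pr (f b) ψ) := by
  induction c with
  | nil => rfl
  | cons a c ih => simp [ih]
theorem pr_add (c : List A) (ψ φ : A → F2) :
    pr c (fun a => ψ a + φ a) = pr c ψ + pr c φ := by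
  induction c with
  | nil => simp
  | cons a c ih => simp only [pr_cons, ih]; ring
theorem pr_mul_left (c : List A) (k : F2) (ψ : A → F2) :
    pr c (fun a => k * ψ a) = k * pr c ψ := by
  induction c with
  | nil => simp
  | cons a c ih => simp only [pr_cons, ih]; ring
theorem pr_mul_right (c : List A) (k : F2) (ψ : A → F2) :
    pr c (fun a => ψ a * k) = pr c ψ * k := by
  induction c with
  | nil => simp
  | cons a c ih => simp only [pr_cons, ih]; ring
@[simp] theorem pr_zero (c : List A) : pr c (fun _ => 0) = 0 := by
  induction c with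
  | nil => simp
  | cons a c ih => simp [ih]
theorem pr_congr {c : List A} {ψ φ : A → F2} (h : ∀ a ∈ c, ψ a = φ a) : pr c ψ = pr c φ := by
  unfold pr
  rw [List.map_congr_left h]
theorem pr_eq_zero {c : List A} {ψ : A → F2} (h : ∀ a ∈ c, ψ a = 0) : pr c ψ = 0 := by
  rw [pr_congr h, pr_zero]
theorem pr_comm (c : List A) (c' : List B) (G : A → B → F2) :
    pr c (fun a => pr c' (fun b => G a b)) = pr c' (fun b => pr c (fun a => G a b)) := by
  induction c with
  | nil => simp
  | cons a c ih => simp only [pr_cons, ih, pr_add]
theorem pr_sum {ι : Type*} (s : Finset ι) (c : List A) (ψ : ι → A → F2) :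
    pr c (fun a => ∑ i ∈ s, ψ i a) = ∑ i ∈ s, pr c (ψ i) := by
  induction c with
  | nil => simp
  | cons a c ih => simp only [pr_cons, ih, Finset.sum_add_distrib]

end pairing

variable {X Y Z : Type*}

/-- boundary of a word -/
def bd : List X → List (List X)
  | [] => []
  | a :: l => l :: (bd l).map (List.cons a)

@[simp] theorem bd_nil : bd ([] : List X) = [] := rfl
@[simp] theorem bd_cons (a : X) (l : List X) : bd (a :: l) = l :: (bd l).map (List.cons a) := rfl

/-- coboundary -/
def dl (ψ : List X → F2) (l : List X) : F2 := pr (bd l) ψ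

@[simp] theorem dl_nil (ψ : List X → F2) : dl ψ [] = 0 := rfl
@[simp] theorem dl_cons (ψ : List X → F2) (a : X) (l : List X) :
    dl ψ (a :: l) = ψ l + dl (fun w => ψ (a :: w)) l := by
  simp [dl]

theorem dl_add (ψ φ : List X → F2) (l : List X) :
    dl (fun w => ψ w + φ w) l = dl ψ l + dl φ l := pr_add _ _ _

theorem dl_mul_left (k : F2) (φ : List X → F2) (l : List X) :
    dl (fun w => k * φ w) l = k * dl φ l := pr_mul_left _ _ _

theorem dl_zero (l : List X) : dl (fun _ => 0) l = 0 := pr_zero _

theorem mem_bd {w l : List X} (h : w ∈ bd l) : w.Sublist l ∧ w.length + 1 = l.length := by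
  induction l generalizing w with
  | nil => simp at h
  | cons a l ih =>
    simp only [bd_cons, List.mem_cons, List.mem_map] at h
    rcases h with rfl | ⟨v, hv, rfl⟩
    · exact ⟨List.sublist_cons_self _ _, by simp⟩
    · obtain ⟨h1, h2⟩ := ih hv
      exact ⟨h1.cons_cons a, by simp [h2]⟩

theorem dl_congr {ψ φ : List X → F2} {l : List X}
    (h : ∀ w, w.Sublist l → w.length + 1 = l.length → ψ w = φ w) : dl ψ l = dl φ l :=
  pr_congr fun w hw => h w (mem_bd hw).1 (mem_bd hw).2

theorem dl_eq_zero {ψ : List X → F2} {l : List X}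
    (h : ∀ w, w.Sublist l → w.length + 1 = l.length → ψ w = 0) : dl ψ l = 0 :=
  pr_eq_zero fun w hw => h w (mem_bd hw).1 (mem_bd hw).2

theorem dl_dl (ψ : List X → F2) (l : List X) : dl (dl ψ) l = 0 := by
  induction l generalizing ψ with
  | nil => simp
  | cons a l ih =>
    simp only [dl_cons]
    rw [dl_add, ih, add_zero, self_add]

theorem bd_map (f : X → Y) (l : List X) : bd (l.map f) = (bd l).map (List.map f) := by
  induction l with
  | nil => rfl
  | cons a l ih => simp [ih, Function.comp_def]

theorem dl_map (f : X → Y) (ψ : List Y → F2) (l : List X) :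
    dl ψ (l.map f) = dl (fun w => ψ (w.map f)) l := by
  simp [dl, bd_map]

/-- subdivision: cone from `c w` over the subdivision of the boundary of `w` -/
def sub (c : List X → Y) : ℕ → List X → List (List Y)
  | 0, _ => [[]]
  | n + 1, w => ((bd w).flatMap (sub c n)).map (List.cons (c w))

theorem pr_sub_zero (c : List X → Y) (w : List X) (ψ : List Y → F2) :
    pr (sub c 0 w) ψ = ψ [] := by simp [sub]

theorem pr_sub_succ (c : List X → Y) (n : ℕ) (w : List X) (ψ : List Y → F2) :
    pr (sub c (n + 1) w) ψ = dl (fun v => pr (sub c n v) (fun u => ψ (c w :: u))) w := by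
  simp [sub, dl]

/-- the subdivision operator is a chain map -/
theorem pr_sub_dl (c : List X → Y) (n : ℕ) (w : List X) (ψ : List Y → F2) :
    pr (sub c (n + 1) w) (dl ψ) = dl (fun v => pr (sub c n v) ψ) w := by
  induction n generalizing w ψ with
  | zero =>
    rw [pr_sub_succ]
    refine dl_congr fun v _ _ => ?_
    simp [pr_sub_zero]
  | succ n ih =>
    rw [pr_sub_succ]
    have : (fun v => pr (sub c (n + 1) v) fun u => dl ψ (c w :: u))
        = fun v => pr (sub c (n + 1) v) ψ
          + dl (fun v' => pr (sub c n v') (fun u => ψ (c w :: u))) v := by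
      funext v
      simp only [dl_cons]
      rw [pr_add, ih]
    rw [this, dl_add, dl_dl, add_zero]

theorem mem_sub_length (c : List X → Y) {n : ℕ} {w : List X} {u : List Y}
    (h : u ∈ sub c n w) : u.length = n := by
  induction n generalizing w u with
  | zero => simp [sub] at h; simp [h]
  | succ n ih =>
    simp only [sub, List.mem_map, List.mem_flatMap] at h
    obtain ⟨v, ⟨w', _, hv⟩, rfl⟩ := h
    simp [ih hv]

theorem sub_map {X' Y' : Type*} (c : List X → Y) (c' : List X' → Y') (f : X → X') (g : Y → Y')
    (hc : ∀ w, c' (w.map f) = g (c w)) (n : ℕ) (w : List X) :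
    sub c' n (w.map f) = (sub c n w).map (List.map g) := by
  induction n generalizing w with
  | zero => simp [sub]
  | succ n ih =>
    simp only [sub, bd_map, List.flatMap_map, List.map_flatMap, hc, List.map_map]
    congr 1
    funext v
    rw [ih]
    simp [Function.comp_def]

/-- iterated subdivision (endomorphism version) -/
def iter (c : List X → X) : ℕ → ℕ → List X → List (List X)
  | 0, _, w => [w]
  | N + 1, n, w => (sub c n w).flatMap (iter c N n)

theorem pr_iter_dl (c : List X → X) (N n : ℕ) (w : List X) (ψ : List X → F2) :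
    pr (iter c N (n + 1) w) (dl ψ) = dl (fun v => pr (iter c N n v) ψ) w := by
  induction N generalizing w ψ with
  | zero => simp [iter]
  | succ N ih =>
    simp only [iter, pr_flatMap]
    have : (fun b => pr (iter c N (n + 1) b) (dl ψ))
        = dl (fun v => pr (iter c N n v) ψ) := by
      funext b; exact ih b ψ
    rw [this, pr_sub_dl]

theorem iter_map {X' : Type*} (c : List X → X) (c' : List X' → X') (f : X → X')
    (hc : ∀ w, c' (w.map f) = f (c w)) (N n : ℕ) (w : List X) :
    iter c' N n (w.map f) = (iter c N n w).map (List.map f) := by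
  induction N generalizing w with
  | zero => simp [iter]
  | succ N ih =>
    simp only [iter, sub_map c c' f f hc, List.flatMap_map, List.map_flatMap]
    congr 1
    funext v
    rw [ih]

theorem mem_iter_length (c : List X → X) {N n : ℕ} {w u : List X} (hw : w.length = n)
    (h : u ∈ iter c N n w) : u.length = n := by
  induction N generalizing w with
  | zero => simp [iter] at h; simp [h, hw]
  | succ N ih =>
    simp only [iter, List.mem_flatMap] at h
    obtain ⟨v, hv, hu⟩ := h
    exact ih (mem_sub_length c hv) hu

end Pool.Agent.Helper12.LC
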