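import Pool.Agent.Helper12.LFace

/-! The algebraic core: invariant cochains on pairs of faces kill top homology over `ZMod 2`. -/

namespace Pool.Agent.Helper12.LC

open Finset
set_option linter.unusedSectionVars false

variable {V : Type*} [Fintype V] [LinearOrder V]

/-- pairs of faces -/
abbrev PP (V : Type*) := Finset V × Finset V

/-- decreasing words of pairs of nonempty faces -/
def GS (K : Finset (Finset V)) (l : List (PP V)) : Prop :=
  l.Pairwise (fun p q => q.1 ⊆ p.1 ∧ q.2 ⊆ p.2) ∧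
    ∀ p ∈ l, (p.1 ∈ K ∧ p.1.Nonempty) ∧ (p.2 ∈ K ∧ p.2.Nonempty)

/-- all entries are far pairs -/
def InE (K : Finset (Finset V)) (l : List (PP V)) : Prop := ∀ p ∈ l, p.1 ∪ p.2 ∉ K

/-- all entries are near pairs -/
def InL (K : Finset (Finset V)) (l : List (PP V)) : Prop := ∀ p ∈ l, p.1 ∪ p.2 ∈ K

/-- the swap on words -/
def sw (l : List (PP V)) : List (PP V) := l.map Prod.swap

@[simp] theorem sw_sw (l : List (PP V)) : sw (sw l) = l := by
  simp [sw]

@[simp] theorem sw_length (l : List (PP V)) : (sw l).length = l.length := by simp [sw]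

variable {K : Finset (Finset V)}

theorem GS.sublist {l w : List (PP V)} (h : GS K l) (hw : w.Sublist l) : GS K w :=
  ⟨h.1.sublist hw, fun p hp => h.2 p (hw.subset hp)⟩

theorem GS.sw {l : List (PP V)} (h : GS K l) : GS K (sw l) := by
  refine ⟨?_, ?_⟩
  · unfold LC.sw
    rw [List.pairwise_map]
    exact h.1.imp fun {a b} hab => ⟨hab.2, hab.1⟩
  · intro p hp
    obtain ⟨q, hq, rfl⟩ := List.mem_map.mp hp
    exact ⟨(h.2 q hq).2, (h.2 q hq).1⟩

theorem InE.sublist {l w : List (PP V)} (h : InE K l) (hw : w.Sublist l) : InE K w :=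
  fun p hp => h p (hw.subset hp)

theorem InE.sw {l : List (PP V)} (h : InE K l) : InE K (sw l) := by
  intro p hp
  obtain ⟨q, hq, rfl⟩ := List.mem_map.mp hp
  simpa [union_comm] using h q hq

theorem InL.sublist {l w : List (PP V)} (h : InL K l) (hw : w.Sublist l) : InL K w :=
  fun p hp => h p (hw.subset hp)

/-- the retraction -/
def rr (p : PP V) : PP V := (p.1 ∪ p.2, p.1 ∪ p.2)

theorem rr_swap (p : PP V) : rr p.swap = rr p := by simp [rr, union_comm]
theorem swap_rr (p : PP V) : (rr p).swap = rr p := rfl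

theorem mem_prism {l w : List (PP V)} (h : w ∈ prism rr l) :
    ∀ q ∈ w, ∃ p ∈ l, q = p ∨ q = rr p := by
  induction l generalizing w with
  | nil => simp [prism] at h
  | cons a l ih =>
    simp only [prism, List.mem_cons, List.mem_map] at h
    rcases h with rfl | ⟨v, hv, rfl⟩
    · intro q hq
      rcases List.mem_cons.mp hq with rfl | hq
      · exact ⟨a, by simp, Or.inr rfl⟩
      · exact ⟨q, hq, Or.inl rfl⟩
    · intro q hq
      rcases List.mem_cons.mp hq with rfl | hq
      · exact ⟨a, by simp, Or.inr rfl⟩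
      · obtain ⟨p, hp, hpq⟩ := ih hv q hq
        exact ⟨p, List.mem_cons_of_mem _ hp, hpq⟩

theorem GS.prism {l w : List (PP V)} (h : GS K l) (hL : InL K l) (hw : w ∈ prism rr l) :
    GS K w := by
  have hr : ∀ p ∈ l, (rr p).1 ∈ K ∧ (rr p).1.Nonempty := fun p hp =>
    ⟨hL p hp, (h.2 p hp).1.2.mono subset_union_left⟩
  refine ⟨?_, ?_⟩
  · induction l generalizing w with
    | nil => simp [LC.prism] at hw
    | cons a l ih =>
      have h1 := List.pairwise_cons.mp h.1
      have hlt : ∀ q ∈ l, q.1 ⊆ (rr a).1 ∧ q.2 ⊆ (rr a).2 := fun q hq =>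
        ⟨(h1.1 q hq).1.trans subset_union_left, (h1.1 q hq).2.trans subset_union_right⟩
      have hlt' : ∀ q ∈ l, (rr q).1 ⊆ (rr a).1 ∧ (rr q).2 ⊆ (rr a).2 := fun q hq =>
        ⟨union_subset_union (h1.1 q hq).1 (h1.1 q hq).2,
          union_subset_union (h1.1 q hq).1 (h1.1 q hq).2⟩
      simp only [LC.prism, List.mem_cons, List.mem_map] at hw
      rcases hw with rfl | ⟨v, hv, rfl⟩
      · refine List.pairwise_cons.mpr ⟨?_, h.1⟩
        intro q hq
        rcases List.mem_cons.mp hq with rfl | hq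
        · exact ⟨subset_union_left, subset_union_right⟩
        · exact hlt q hq
      · refine List.pairwise_cons.mpr ⟨?_, ih (h.sublist (List.sublist_cons_self _ _))
          (hL.sublist (List.sublist_cons_self _ _)) hv
          (fun p hp => hr p (List.mem_cons_of_mem _ hp))⟩
        intro q hq
        obtain ⟨p, hp, rfl | rfl⟩ := mem_prism hv q hq
        · exact hlt _ hp
        · exact hlt' _ hp
  · intro q hq
    obtain ⟨p, hp, rfl | rfl⟩ := mem_prism hw q hq
    · exact h.2 _ hp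
    · exact ⟨hr p hp, hr p hp⟩

section main

variable [Nonempty V]

/-- the last vertex of a face -/
noncomputable def lam (A : Finset V) : V :=
  if h : A.Nonempty then A.max' h else Classical.arbitrary V

theorem lam_mem {A : Finset V} (h : A.Nonempty) : lam A ∈ A := by
  unfold lam; rw [dif_pos h]; exact Finset.max'_mem _ _

theorem lam_mono {A B : Finset V} (h : A.Nonempty) (hAB : A ⊆ B) : lam A ≤ lam B := by
  unfold lam; rw [dif_pos h, dif_pos (h.mono hAB)]; exact Finset.max'_subset h hAB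

/-- `u` as a cochain on words of vertices -/
def uu (u : Finset V → F2) (x : List V) : F2 := if x.Nodup then u x.toFinset else 0

theorem uu_eq (u : Finset V → F2) (x : List V) : uu u x = ∑ B, u B * chi B x := by
  unfold uu chi
  by_cases h : x.Nodup
  · simp [h]
  · simp [h]

theorem uu_degen (u : Finset V → F2) {x : List V} (h : Degen x) : uu u x = 0 := by
  obtain ⟨a, s, t, rfl⟩ := h
  unfold uu
  rw [if_neg]
  intro h
  have := (List.nodup_append.mp h).2.1
  simp at this

theorem dl_uu {u : Finset V → F2} (hu : ∀ C ∈ K, ∑ v ∈ C, u (C.erase v) = 0) {x : List V}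
    (hx : x.toFinset ∈ K) : dl (uu u) x = 0 := by
  have h1 : uu u = fun x => ∑ B, u B * chi B x := by funext x; exact uu_eq u x
  have h2 : dl (uu u) x = ∑ B, u B * dl (chi B) x := by
    rw [h1]
    unfold dl
    rw [pr_sum]
    refine Finset.sum_congr rfl fun B _ => ?_
    rw [pr_mul_left]
  rw [h2]
  simp only [chi_dl, Finset.mul_sum]
  rw [← sum_flag (fun A G => u G * chi A x)]
  refine Finset.sum_eq_zero fun A _ => ?_
  rw [← Finset.sum_mul]
  by_cases hA : x.Nodup ∧ x.toFinset = A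
  · rw [hu A (by rw [← hA.2]; exact hx), zero_mul]
  · unfold chi; rw [if_neg hA, mul_zero]

/-- `u` as a cochain on words of faces -/
noncomputable def up (u : Finset V → F2) (w : List (Finset V)) : F2 := uu u (w.map lam)

theorem up_degen (u : Finset V → F2) {w : List (Finset V)} (h : Degen w) : up u w = 0 := by
  obtain ⟨a, s, t, rfl⟩ := h
  unfold up
  apply uu_degen
  exact ⟨lam a, s.map lam, t.map lam, by simp⟩

theorem toFinset_lam_mem (hK : ∀ F ∈ K, ∀ G ⊆ F, G ∈ K) {w : List (Finset V)}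
    (hp : w.Pairwise (fun a b => b ⊆ a)) (hw : ∀ A ∈ w, A ∈ K ∧ A.Nonempty) (hne : w ≠ []) :
    (w.map lam).toFinset ∈ K := by
  rcases w with _ | ⟨A, w⟩
  · exact absurd rfl hne
  · refine hK A (hw A (by simp)).1 _ ?_
    intro v hv
    simp only [List.mem_toFinset, List.mem_map] at hv
    obtain ⟨B, hB, rfl⟩ := hv
    have h1 := lam_mem (hw B hB).2
    rcases List.mem_cons.mp hB with rfl | hB
    · exact h1
    · exact (List.pairwise_cons.mp hp).1 B hB h1

theorem dl_up (hK : ∀ F ∈ K, ∀ G ⊆ F, G ∈ K) {u : Finset V → F2}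
    (hu : ∀ C ∈ K, ∑ v ∈ C, u (C.erase v) = 0) {w : List (Finset V)}
    (hp : w.Pairwise (fun a b => b ⊆ a)) (hw : ∀ A ∈ w, A ∈ K ∧ A.Nonempty) :
    dl (up u) w = 0 := by
  rcases w.eq_nil_or_concat with rfl | h
  · rfl
  have hne : w ≠ [] := by rintro rfl; obtain ⟨_, _, h⟩ := h; simp at h
  have : dl (up u) w = dl (uu u) (w.map lam) := by rw [dl_map]; rfl
  rw [this]
  exact dl_uu hu (toFinset_lam_mem hK hp hw hne)

/-- left cochain on words of pairs -/
noncomputable def al (u : Finset V → F2) (l : List (PP V)) : F2 := up u (l.map Prod.fst)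
/-- right cochain on words of pairs -/
noncomputable def be (u : Finset V → F2) (l : List (PP V)) : F2 := up u (l.map Prod.snd)

theorem al_sw (u : Finset V → F2) (l : List (PP V)) : al u (sw l) = be u l := by
  simp [al, be, sw, Function.comp_def]
theorem be_sw (u : Finset V → F2) (l : List (PP V)) : be u (sw l) = al u l := by
  simp [al, be, sw, Function.comp_def]

theorem dl_al (hK : ∀ F ∈ K, ∀ G ⊆ F, G ∈ K) {u : Finset V → F2}
    (hu : ∀ C ∈ K, ∑ v ∈ C, u (C.erase v) = 0) {l : List (PP V)} (hl : GS K l) :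
    dl (al u) l = 0 := by
  have : dl (al u) l = dl (up u) (l.map Prod.fst) := by rw [dl_map]; rfl
  rw [this]
  refine dl_up hK hu ?_ ?_
  · rw [List.pairwise_map]; exact hl.1.imp fun h => h.1
  · intro A hA
    obtain ⟨p, hp, rfl⟩ := List.mem_map.mp hA
    exact (hl.2 p hp).1

theorem dl_be (hK : ∀ F ∈ K, ∀ G ⊆ F, G ∈ K) {u : Finset V → F2}
    (hu : ∀ C ∈ K, ∑ v ∈ C, u (C.erase v) = 0) {l : List (PP V)} (hl : GS K l) :
    dl (be u) l = 0 := by
  have : dl (be u) l = dl (up u) (l.map Prod.snd) := by rw [dl_map]; rfl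
  rw [this]
  refine dl_up hK hu ?_ ?_
  · rw [List.pairwise_map]; exact hl.1.imp fun h => h.2
  · intro A hA
    obtain ⟨p, hp, rfl⟩ := List.mem_map.mp hA
    exact (hl.2 p hp).2

/-- the equivariant cocycle -/
noncomputable def UU (u : Finset V → F2) (i : ℕ) : List (PP V) → F2 := ev (i + 1) (al u) (be u)

theorem UU_sw (u : Finset V → F2) (i : ℕ) (l : List (PP V)) :
    UU u i (sw l) = ev (i + 1) (be u) (al u) l := by
  unfold UU
  rw [sw, ev_map]
  exact ev_congr _ (fun w _ => al_sw u w) (fun w _ => be_sw u w)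

theorem dl_UU_succ (hK : ∀ F ∈ K, ∀ G ⊆ F, G ∈ K) {u : Finset V → F2}
    (hu : ∀ C ∈ K, ∑ v ∈ C, u (C.erase v) = 0) {l : List (PP V)} (hl : GS K l) (i : ℕ) :
    dl (UU u (i + 1)) l = UU u i l + UU u i (sw l) := by
  rw [UU_sw]
  unfold UU
  rw [dl_ev_succ]
  have h1 : ev (i + 1 + 1) (dl (al u)) (be u) l = 0 := by
    rw [ev_congr (α' := fun _ => 0) (β' := be u) _ (fun w hw => dl_al hK hu (hl.sublist hw))
      (fun _ _ => rfl), (ev_zero_left _ _ _).1]
  have h2 : ev (i + 1 + 1) (al u) (dl (be u)) l = 0 := by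
    rw [ev_congr (α' := al u) (β' := fun _ => 0) _ (fun _ _ => rfl)
      (fun w hw => dl_be hK hu (hl.sublist hw)), (ev_zero_left _ _ _).2]
  rw [h1, h2]; ring

theorem dl_UU_zero (hK : ∀ F ∈ K, ∀ G ⊆ F, G ∈ K) {u : Finset V → F2}
    (hu : ∀ C ∈ K, ∑ v ∈ C, u (C.erase v) = 0) (hu0 : u ∅ = 0) {l : List (PP V)} (hl : GS K l) :
    dl (UU u 0) l = 0 := by
  unfold UU
  rw [dl_ev_succ]
  have h1 : ev (0 + 1) (dl (al u)) (be u) l = 0 := by
    rw [ev_congr (α' := fun _ => 0) (β' := be u) _ (fun w hw => dl_al hK hu (hl.sublist hw))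
      (fun _ _ => rfl), (ev_zero_left _ _ _).1]
  have h2 : ev (0 + 1) (al u) (dl (be u)) l = 0 := by
    rw [ev_congr (α' := al u) (β' := fun _ => 0) _ (fun _ _ => rfl)
      (fun w hw => dl_be hK hu (hl.sublist hw)), (ev_zero_left _ _ _).2]
  have h3 : al u [] = 0 := by simp [al, up, uu, hu0]
  have h4 : be u [] = 0 := by simp [be, up, uu, hu0]
  rw [h1, h2, ev_zero, ev_zero, h3, h4]; ring

/-- the subdivided cycle -/
noncomputable def sc (z : Finset V → F2) (m : ℕ) : List (List (Finset V)) :=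
  (Finset.univ.filter (fun A : Finset V => z A = 1)).toList.flatMap
    (fun A => sub List.toFinset (m + 1) (srt A))

theorem F2_cases (a : F2) : a = 0 ∨ a = 1 := by
  revert a; decide

theorem pr_sc (z : Finset V → F2) (m : ℕ) (ψ : List (Finset V) → F2) :
    pr (sc z m) ψ = ∑ A, z A * pr (sub List.toFinset (m + 1) (srt A)) ψ := by
  unfold sc
  rw [pr_flatMap]
  have : ∀ (s : Finset (Finset V)) (g : Finset V → F2), pr s.toList g = ∑ A ∈ s, g A := by
    intro s g
    simp [pr]
  rw [this, Finset.sum_filter]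
  refine Finset.sum_congr rfl fun A _ => ?_
  rcases F2_cases (z A) with h | h
  · simp [h]
  · simp [h]

theorem pr_sc_dl {z : Finset V → F2} (hz : ∀ G, ∑ v ∈ Gᶜ, z (insert v G) = 0) (m : ℕ)
    (ψ : List (Finset V) → F2) : pr (sc z m) (dl ψ) = 0 := by
  rw [pr_sc]
  have h1 : ∀ A : Finset V, z A * pr (sub List.toFinset (m + 1) (srt A)) (dl ψ)
      = ∑ v ∈ A, z A * pr (sub List.toFinset m (srt (A.erase v))) ψ := by
    intro A
    rw [pr_sub_dl, dl_srt, Finset.mul_sum]
  simp only [h1]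
  rw [sum_flag (fun A G => z A * pr (sub List.toFinset m (srt G)) ψ)]
  refine Finset.sum_eq_zero fun G _ => ?_
  rw [← Finset.sum_mul, hz G, zero_mul]

theorem pr_sub_chi (n : ℕ) (w : List V) (hw : w.length = n) (B : Finset V) :
    pr (sub List.toFinset n w) (fun l => chi B (l.map lam)) = chi B w := by
  induction n generalizing w B with
  | zero =>
    rw [pr_sub_zero]
    rw [List.length_eq_zero_iff.mp hw]; rfl
  | succ n ih =>
    rw [pr_sub_succ]
    have hne : w.toFinset.Nonempty := by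
      rcases w with _ | ⟨a, w⟩
      · simp at hw
      · exact ⟨a, by simp⟩
    set a := lam w.toFinset with ha
    have haw : a ∈ w.toFinset := lam_mem hne
    simp only [List.map_cons, chi_cons]
    by_cases haB : a ∈ B
    · have e1 : dl (fun v => pr (sub List.toFinset n v) fun l =>
          if lam w.toFinset ∈ B then chi (B.erase (lam w.toFinset)) (l.map lam) else 0) w
          = dl (chi (B.erase a)) w := by
        refine dl_congr fun v _ hv => ?_
        rw [← ih v (by omega) (B.erase a)]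
        refine pr_congr fun l _ => ?_
        rw [if_pos haB]
      rw [e1, chi_dl, Finset.sum_eq_single a]
      · rw [insert_erase haB]
      · intro v _ hva
        unfold chi
        rw [if_neg]
        rintro ⟨_, h⟩
        rw [h] at haw
        simp [hva.symm] at haw
      · intro h
        simp at h
    · rw [dl_eq_zero, eq_comm]
      · unfold chi
        rw [if_neg]
        rintro ⟨_, h⟩
        exact haB (h ▸ haw)
      · intro v _ _
        refine pr_eq_zero fun l _ => ?_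
        rw [if_neg haB]

theorem pr_sub_uu (n : ℕ) (w : List V) (hw : w.length = n) (u : Finset V → F2) :
    pr (sub List.toFinset n w) (up u) = uu u w := by
  have h1 : up u = fun l => ∑ B, u B * chi B (l.map lam) := by
    funext l; unfold up; rw [uu_eq]
  rw [h1, pr_sum, uu_eq]
  refine Finset.sum_congr rfl fun B _ => ?_
  rw [pr_mul_left, pr_sub_chi n w hw]

theorem pr_sc_up {z u : Finset V → F2} {m : ℕ}
    (hz : ∀ F, ¬ (F ∈ K ∧ F.card = m + 1) → z F = 0) :
    pr (sc z m) (up u) = ∑ B, u B * z B := by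
  rw [pr_sc]
  refine Finset.sum_congr rfl fun A _ => ?_
  by_cases hA : A ∈ K ∧ A.card = m + 1
  · rw [pr_sub_uu _ _ (by rw [srt_length]; exact hA.2)]
    unfold uu
    rw [if_pos (srt_nodup A), srt_toFinset, mul_comm]
  · rw [hz A hA]; simp

theorem mem_sub_toFinset {n : ℕ} {w : List V} (hn : w.length = n) {x : List (Finset V)}
    (hx : x ∈ sub List.toFinset n w) :
    x.Pairwise (fun a b => b ⊆ a) ∧ ∀ A ∈ x, A.Nonempty ∧ A ⊆ w.toFinset := by
  induction n generalizing w x with
  | zero => simp [sub] at hx; subst hx; simp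
  | succ n ih =>
    simp only [sub, List.mem_map, List.mem_flatMap] at hx
    obtain ⟨v, ⟨w', hw', hv⟩, rfl⟩ := hx
    have h1 := mem_bd hw'
    obtain ⟨h2, h3⟩ := ih (by omega) hv
    have h4 : w'.toFinset ⊆ w.toFinset := by
      intro a ha
      simp only [List.mem_toFinset] at ha ⊢
      exact h1.1.subset ha
    have hne : w.toFinset.Nonempty := by
      rcases w with _ | ⟨a, w⟩
      · simp at hn
      · exact ⟨a, by simp⟩
    refine ⟨List.pairwise_cons.mpr ⟨fun A hA => (h3 A hA).2.trans h4, h2⟩, ?_⟩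
    intro A hA
    rcases List.mem_cons.mp hA with rfl | hA
    · exact ⟨hne, Finset.Subset.refl _⟩
    · exact ⟨(h3 A hA).1, (h3 A hA).2.trans h4⟩

theorem mem_sc (hK : ∀ F ∈ K, ∀ G ⊆ F, G ∈ K) {z : Finset V → F2} {m : ℕ}
    (hz : ∀ F, ¬ (F ∈ K ∧ F.card = m + 1) → z F = 0) {x : List (Finset V)} (hx : x ∈ sc z m) :
    x.length = m + 1 ∧ x.Pairwise (fun a b => b ⊆ a) ∧ ∀ A ∈ x, A ∈ K ∧ A.Nonempty := by
  unfold sc at hx
  simp only [List.mem_flatMap, Finset.mem_toList, Finset.mem_filter] at hx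
  obtain ⟨A, ⟨_, hA⟩, hx⟩ := hx
  have hA' : A ∈ K ∧ A.card = m + 1 := by
    by_contra h
    rw [hz A h] at hA
    exact absurd hA (by decide)
  obtain ⟨h1, h2⟩ := mem_sub_toFinset (by rw [srt_length]; exact hA'.2) hx
  refine ⟨mem_sub_length _ hx, h1, fun B hB => ⟨hK A hA'.1 B ?_, (h2 B hB).1⟩⟩
  have := (h2 B hB).2
  rwa [srt_toFinset] at this

/-- the product cycle -/
noncomputable def Zc (z : Finset V → F2) (m : ℕ) : List (List (PP V)) :=
  (sc z m).flatMap (fun x => (sc z m).flatMap (fun y => ez x y))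

theorem pr_Zc (z : Finset V → F2) (m : ℕ) (ψ : List (PP V) → F2) :
    pr (Zc z m) ψ = pr (sc z m) (fun x => pr (sc z m) (fun y => pr (ez x y) ψ)) := by
  unfold Zc; simp

theorem pr_Zc_sw (z : Finset V → F2) (m : ℕ) (ψ : List (PP V) → F2) :
    pr (Zc z m) (fun l => ψ (sw l)) = pr (Zc z m) ψ := by
  rw [pr_Zc, pr_Zc, pr_comm]
  refine pr_congr fun x _ => pr_congr fun y _ => ?_
  exact ez_swap y x ψ

theorem pr_Zc_dl (hK : ∀ F ∈ K, ∀ G ⊆ F, G ∈ K) {z : Finset V → F2} {m : ℕ} (hm : 1 ≤ m)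
    (hz : ∀ F, ¬ (F ∈ K ∧ F.card = m + 1) → z F = 0)
    (hz' : ∀ G, ∑ v ∈ Gᶜ, z (insert v G) = 0) (ψ : List (PP V) → F2) :
    pr (Zc z m) (dl ψ) = 0 := by
  rw [pr_Zc]
  have h1 : pr (sc z m) (fun x => pr (sc z m) (fun y => pr (ez x y) (dl ψ)))
      = pr (sc z m) (fun x => pr (sc z m) (fun y => dl (fun x' => pr (ez x' y) ψ) x
        + dl (fun y' => pr (ez x y') ψ) y)) := by
    refine pr_congr fun x hx => pr_congr fun y hy => ?_
    refine pr_ez_dl x y ?_ ψ
    have := (mem_sc hK hz hx).1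
    omega
  rw [h1]
  simp only [pr_add]
  rw [pr_comm]
  have h2 : ∀ y : List (Finset V), pr (sc z m) (fun x => dl (fun x' => pr (ez x' y) ψ) x) = 0 :=
    fun y => pr_sc_dl hz' m _
  have h3 : ∀ x : List (Finset V), pr (sc z m) (fun y => dl (fun y' => pr (ez x y') ψ) y) = 0 :=
    fun x => pr_sc_dl hz' m _
  simp only [h2, h3, pr_zero, add_zero]

theorem pr_Zc_UU (hK : ∀ F ∈ K, ∀ G ⊆ F, G ∈ K) {z u : Finset V → F2} {m : ℕ}
    (hz : ∀ F, ¬ (F ∈ K ∧ F.card = m + 1) → z F = 0) :
    pr (Zc z m) (UU u 0) = (∑ B, u B * z B) * (∑ B, u B * z B) := by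
  rw [pr_Zc]
  have h1 : pr (sc z m) (fun x => pr (sc z m) (fun y => pr (ez x y) (UU u 0)))
      = pr (sc z m) (fun x => pr (sc z m) (fun y => up u x * up u y)) := by
    refine pr_congr fun x hx => pr_congr fun y hy => ?_
    have hx1 := (mem_sc hK hz hx).1
    have hy1 := (mem_sc hK hz hy).1
    exact pr_ez_ev (fun w hw => up_degen u hw) (fun w hw => up_degen u hw)
      (by rintro rfl; simp at hx1) (by rintro rfl; simp at hy1)
  rw [h1]
  simp only [pr_mul_left, pr_mul_right, pr_sc_up hz]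

theorem mem_Zc (hK : ∀ F ∈ K, ∀ G ⊆ F, G ∈ K) {z : Finset V → F2} {m : ℕ}
    (hz : ∀ F, ¬ (F ∈ K ∧ F.card = m + 1) → z F = 0) {l : List (PP V)} (hl : l ∈ Zc z m) :
    l.length = 2 * m + 1 ∧ GS K l := by
  unfold Zc at hl
  simp only [List.mem_flatMap] at hl
  obtain ⟨x, hx, y, hy, hl⟩ := hl
  obtain ⟨x1, x2, x3⟩ := mem_sc hK hz hx
  obtain ⟨y1, y2, y3⟩ := mem_sc hK hz hy
  obtain ⟨l1, l2⟩ := mem_ez hl
  refine ⟨by omega, ?_, ?_⟩
  · exact pairwise_ez (R := fun a b => b ⊆ a) (S := fun a b => b ⊆ a)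
      (fun a => Finset.Subset.refl a) (fun b => Finset.Subset.refl b) x2 y2 hl
  · intro p hp
    exact ⟨x3 _ (l2 p hp).1, y3 _ (l2 p hp).2⟩

end main

end Pool.Agent.Helper12.LC
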