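import Pool.Agent.Helper12.LShuffle

/-! simplicial chains over `ZMod 2` on finsets versus words -/

namespace Pool.Agent.Helper12.LC

open Finset
set_option linter.unusedSectionVars false

variable {V : Type*} [Fintype V] [LinearOrder V]

/-- the word `x` spells the face `B` -/
def chi (B : Finset V) (x : List V) : F2 := if x.Nodup ∧ x.toFinset = B then 1 else 0

theorem chi_nil (B : Finset V) : chi B ([] : List V) = if B = ∅ then 1 else 0 := by
  unfold chi
  simp [eq_comm]

theorem chi_cons (B : Finset V) (a : V) (x : List V) :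
    chi B (a :: x) = if a ∈ B then chi (B.erase a) x else 0 := by
  unfold chi
  by_cases ha : a ∈ B
  · rw [if_pos ha]
    congr 1
    rw [List.nodup_cons, List.toFinset_cons]
    apply propext
    constructor
    · rintro ⟨⟨h1, h2⟩, h3⟩
      refine ⟨h2, ?_⟩
      rw [← h3, erase_insert (by simpa using h1)]
    · rintro ⟨h1, h2⟩
      have h3 : a ∉ x := by
        intro h
        have : a ∈ x.toFinset := by simpa using h
        rw [h2] at this
        simp at this
      exact ⟨⟨h3, h1⟩, by rw [h2, insert_erase ha]⟩
  · rw [if_neg ha, if_neg]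
    rintro ⟨_, h3⟩
    apply ha
    rw [← h3]
    simp

theorem chi_dl (B : Finset V) (x : List V) :
    dl (chi B) x = ∑ v ∈ Bᶜ, chi (insert v B) x := by
  induction x generalizing B with
  | nil =>
    rw [dl_nil]
    refine (Finset.sum_eq_zero fun v _ => ?_).symm
    rw [chi_nil, if_neg (by simp)]
  | cons a x ih =>
    rw [dl_cons]
    by_cases ha : a ∈ B
    · have e1 : (fun w => chi B (a :: w)) = chi (B.erase a) := by
        funext w; rw [chi_cons, if_pos ha]
      rw [e1, ih]
      have e2 : (B.erase a)ᶜ = insert a Bᶜ := by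
        ext v; by_cases h : v = a <;> simp [h]
      rw [e2, Finset.sum_insert (by simpa using ha), insert_erase ha, ← add_assoc, self_add,
        zero_add]
      refine Finset.sum_congr rfl fun v hv => ?_
      have hv' : v ∉ B := by simpa using hv
      have hva : a ≠ v := by rintro rfl; exact hv' ha
      rw [chi_cons, if_pos (by simp [ha]), erase_insert_of_ne (Ne.symm hva)]
    · have e1 : (fun w => chi B (a :: w)) = fun _ => 0 := by
        funext w; rw [chi_cons, if_neg ha]
      rw [e1, dl_zero, add_zero]
      rw [Finset.sum_eq_single a]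
      · rw [chi_cons, if_pos (by simp), erase_insert ha]
      · intro v _ hva
        rw [chi_cons, if_neg]
        simp only [Finset.mem_insert, not_or]
        exact ⟨Ne.symm hva, ha⟩
      · intro h
        exact absurd (by simpa using ha) h

/-- reindexing of flags `(G, v)` -/
theorem sum_flag (F : Finset V → Finset V → F2) :
    ∑ A : Finset V, ∑ v ∈ A, F A (A.erase v) = ∑ G : Finset V, ∑ v ∈ Gᶜ, F (insert v G) G := by
  rw [Finset.sum_sigma', Finset.sum_sigma']
  refine Finset.sum_bij' (fun p _ => ⟨p.1.erase p.2, p.2⟩) (fun p _ => ⟨insert p.2 p.1, p.2⟩)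
    ?_ ?_ ?_ ?_ ?_
  · rintro ⟨A, v⟩ h
    simp
  · rintro ⟨G, v⟩ h
    simp
  · rintro ⟨A, v⟩ h
    simp only [Finset.mem_sigma] at h
    simp [insert_erase h.2]
  · rintro ⟨G, v⟩ h
    simp only [Finset.mem_sigma, Finset.mem_compl] at h
    simp [erase_insert h.2]
  · rintro ⟨A, v⟩ h
    simp only [Finset.mem_sigma] at h
    simp [insert_erase h.2]

/-- decreasing word of a face -/
def srt (A : Finset V) : List V := A.sort (fun a b => b ≤ a)

theorem srt_nodup (A : Finset V) : (srt A).Nodup := Finset.sort_nodup _ _
theorem srt_toFinset (A : Finset V) : (srt A).toFinset = A := Finset.sort_toFinset _ _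
theorem srt_length (A : Finset V) : (srt A).length = A.card := Finset.length_sort _
theorem srt_pairwise (A : Finset V) : (srt A).Pairwise (fun a b => b ≤ a) :=
  Finset.pairwise_sort _ _

theorem srt_insert {a : V} {A : Finset V} (h : ∀ b ∈ A, b ≤ a) (ha : a ∉ A) :
    srt (insert a A) = a :: srt A := by
  unfold srt
  exact Finset.sort_insert _ h ha

theorem eq_srt {x : List V} (h : x.Nodup) (hx : x.Pairwise (fun a b => b ≤ a)) :
    x = srt x.toFinset := by
  unfold srt
  exact ((List.toFinset_sort (fun a b => b ≤ a) h).mpr hx).symm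

theorem dl_srt (g : List V → F2) (A : Finset V) :
    dl g (srt A) = ∑ v ∈ A, g (srt (A.erase v)) := by
  induction hn : A.card generalizing A g with
  | zero =>
    rw [Finset.card_eq_zero] at hn
    subst hn
    simp [srt]
  | succ n ih =>
    have hne : A.Nonempty := Finset.card_pos.mp (by omega)
    set a := A.max' hne with ha
    have haA : a ∈ A := Finset.max'_mem _ _
    have hle : ∀ b ∈ A, b ≤ a := fun b hb => Finset.le_max' _ _ hb
    have h1 : srt A = a :: srt (A.erase a) := by
      conv_lhs => rw [← insert_erase haA]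
      exact srt_insert (fun b hb => hle b (Finset.mem_of_mem_erase hb)) (by simp)
    rw [h1, dl_cons, ih _ (A.erase a) (by rw [Finset.card_erase_of_mem haA]; omega)]
    rw [← Finset.add_sum_erase A _ haA]
    congr 1
    refine Finset.sum_congr rfl fun v hv => ?_
    have hva : v ≠ a := Finset.ne_of_mem_erase hv
    have h2 : A.erase v = insert a ((A.erase a).erase v) := by
      ext b; simp only [mem_erase, mem_insert]
      by_cases hb : b = a
      · subst hb; simp [haA, hva.symm]
      · simp [hb]
    rw [h2, srt_insert]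
    · intro b hb
      exact hle b (Finset.mem_of_mem_erase (Finset.mem_of_mem_erase hb))
    · simp

/-- acyclicity over `ZMod 2` in degree `n` of a family of faces -/
def Acyc2 (K : Finset (Finset V)) (n : ℕ) : Prop :=
  ∀ z : Finset V → F2, (∀ F, ¬ (F ∈ K ∧ F.card = n + 1) → z F = 0) →
    (∀ G, ∑ v ∈ Gᶜ, z (insert v G) = 0) →
    ∃ e : Finset V → F2, (∀ F, ¬ (F ∈ K ∧ F.card = n + 2) → e F = 0) ∧
      ∀ G, ∑ v ∈ Gᶜ, e (insert v G) = z G

/-- if every cocycle kills every cycle then the complex is acyclic in that degree -/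
theorem acyc2_of_pairing (K : Finset (Finset V)) (hK : ∀ F ∈ K, ∀ G ⊆ F, G ∈ K) (n : ℕ)
    (h : ∀ z u : Finset V → F2, (∀ F, ¬ (F ∈ K ∧ F.card = n + 1) → z F = 0) →
      (∀ F, ¬ (F ∈ K ∧ F.card = n + 1) → u F = 0) →
      (∀ G, ∑ v ∈ Gᶜ, z (insert v G) = 0) → (∀ C ∈ K, ∑ v ∈ C, u (C.erase v) = 0) →
      ∑ B, u B * z B = 0) : Acyc2 K n := by
  classical
  intro z hz hz'
  by_contra hcon
  -- the boundary map
  let D : (Finset V → F2) →ₗ[F2] (Finset V → F2) :=
    { toFun := fun e G => ∑ v ∈ Gᶜ, e (insert v G)
      map_add' := fun a b => by funext G; simp [Finset.sum_add_distrib]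
      map_smul' := fun r a => by funext G; simp [Finset.mul_sum] }
  let C : Submodule F2 (Finset V → F2) :=
    { carrier := {e | ∀ F, ¬ (F ∈ K ∧ F.card = n + 2) → e F = 0}
      add_mem' := fun {a b} ha hb F hF => by simp [ha F hF, hb F hF]
      zero_mem' := fun F _ => rfl
      smul_mem' := fun r a ha F hF => by simp [ha F hF] }
  have hzB : z ∉ C.map D := by
    rintro ⟨e, he, hez⟩
    exact hcon ⟨e, he, fun G => congrFun hez G⟩
  obtain ⟨f, hf1, hf2⟩ := Submodule.exists_le_ker_of_notMem hzB
  let u : Finset V → F2 := fun B => if B ∈ K ∧ B.card = n + 1 then f (Pi.single B 1) else 0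
  have hfz : f z = ∑ B, u B * z B := by
    have h1 : z = ∑ B, z B • (Pi.single B (1 : F2) : Finset V → F2) := by
      funext G
      simp [Finset.sum_apply, Pi.single_apply]
    conv_lhs => rw [h1]
    rw [map_sum]
    refine Finset.sum_congr rfl fun B _ => ?_
    rw [map_smul, smul_eq_mul]
    by_cases hB : B ∈ K ∧ B.card = n + 1
    · simp only [u, if_pos hB]; ring
    · simp only [u, if_neg hB, hz B hB]; ring
  apply hf1
  rw [hfz]
  refine h z u hz (fun F hF => by simp only [u, if_neg hF]) hz' ?_
  intro A hA
  by_cases hc : A.card = n + 2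
  · have h1 : D (Pi.single A 1) ∈ C.map D := by
      refine ⟨Pi.single A 1, ?_, rfl⟩
      intro F hF
      have : F ≠ A := by rintro rfl; exact hF ⟨hA, hc⟩
      simp [this]
    have h2 : f (D (Pi.single A 1)) = 0 := hf2 h1
    have h3 : D (Pi.single A 1) = ∑ v ∈ A, (Pi.single (A.erase v) (1 : F2) : Finset V → F2) := by
      funext G
      change ∑ v ∈ Gᶜ, (Pi.single A (1 : F2) : Finset V → F2) (insert v G) = _
      rw [Finset.sum_apply]
      simp only [Pi.single_apply]
      by_cases hG : ∃ v ∈ A, G = A.erase v
      · obtain ⟨v, hv, rfl⟩ := hG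
        rw [Finset.sum_eq_single v, Finset.sum_eq_single v]
        · simp [insert_erase hv]
        · intro w hw hwv
          rw [if_neg]
          intro h
          have : w ∈ A.erase v := by simp [hw, hwv]
          rw [h] at this; simp at this
        · intro h; exact absurd hv h
        · intro w hw hwv
          rw [if_neg]
          intro h
          have : v ∈ insert w (A.erase v) := by rw [h]; exact hv
          simp at this; exact hwv this.symm
        · intro h; simp at h
      · push Not at hG
        rw [Finset.sum_eq_zero, Finset.sum_eq_zero]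
        · intro v hv
          rw [if_neg (hG v hv)]
        · intro v hv
          rw [if_neg]
          intro h
          have hv' : v ∉ G := by simpa using hv
          exact hG v (by rw [← h]; simp) (by rw [← h, erase_insert hv'])
    rw [h3, map_sum] at h2
    rw [← h2]
    refine Finset.sum_congr rfl fun v hv => ?_
    have : A.erase v ∈ K ∧ (A.erase v).card = n + 1 :=
      ⟨hK A hA _ (erase_subset _ _), by rw [card_erase_of_mem hv]; omega⟩
    simp only [u, if_pos this]
  · refine Finset.sum_eq_zero fun v hv => ?_
    have : ¬ (A.erase v ∈ K ∧ (A.erase v).card = n + 1) := by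
      rintro ⟨_, h⟩
      rw [card_erase_of_mem hv] at h
      have : 0 < A.card := card_pos.mpr ⟨v, hv⟩
      omega
    simp only [u, if_neg this]

end Pool.Agent.Helper12.LC
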