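import Pool.Agent.Helper12.LChain

/-! Barycentric subdivision of affine words and sign cochains. -/

namespace Pool.Agent.Helper12.LC

set_option linter.unusedSectionVars false

section bary

variable {P : Type*} [NormedAddCommGroup P] [NormedSpace ℝ P]

/-- barycenter of a word of points -/
noncomputable def bary (w : List P) : P := ((w.length : ℝ)⁻¹) • w.sum

theorem bary_singleton (p : P) : bary [p] = p := by simp [bary]

theorem bary_mem {C : Set P} (hC : Convex ℝ C) {w : List P} (hw : w ≠ [])
    (h : ∀ p ∈ w, p ∈ C) : bary w ∈ C := by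
  induction w with
  | nil => exact absurd rfl hw
  | cons a w ih =>
    by_cases hw' : w = []
    · subst hw'; rw [bary_singleton]; exact h a (by simp)
    · have h1 := ih hw' (fun p hp => h p (List.mem_cons_of_mem _ hp))
      have h2 : a ∈ C := h a (by simp)
      have hlen : (0 : ℝ) < w.length := by
        have : 0 < w.length := List.length_pos_iff.mpr hw'
        exact_mod_cast this
      have h3 : bary (a :: w) = ((1 : ℝ) / (w.length + 1)) • a
          + ((w.length : ℝ) / (w.length + 1)) • bary w := by
        unfold bary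
        rw [smul_smul, List.sum_cons, List.length_cons, smul_add]
        congr 1
        · congr 1; push_cast; rw [one_div]
        · congr 1; push_cast; field_simp
      rw [h3]
      refine hC h2 h1 (by positivity) (by positivity) ?_
      field_simp
      ring

theorem mem_sub_convex {C : Set P} (hC : Convex ℝ C) {n : ℕ} {w : List P} (hn : w.length = n)
    (h : ∀ p ∈ w, p ∈ C) {x : List P} (hx : x ∈ sub bary n w) : ∀ p ∈ x, p ∈ C := by
  induction n generalizing w x with
  | zero => simp [sub] at hx; subst hx; simp
  | succ n ih =>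
    simp only [sub, List.mem_map, List.mem_flatMap] at hx
    obtain ⟨v, ⟨w', hw', hv⟩, rfl⟩ := hx
    have h1 := mem_bd hw'
    have h2 := ih (w := w') (by omega) (fun p hp => h p (h1.1.subset hp)) hv
    intro p hp
    rcases List.mem_cons.mp hp with rfl | hp
    · exact bary_mem hC (by rintro rfl; simp at hn) h
    · exact h2 p hp

theorem dist_bary_le_sum (w : List P) (hw : w ≠ []) (q : P) :
    dist (bary w) q ≤ ((w.length : ℝ)⁻¹) * (w.map (fun p => dist p q)).sum := by
  have hlen : (0 : ℝ) < w.length := by
    have : 0 < w.length := List.length_pos_iff.mpr hw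
    exact_mod_cast this
  have h1 : bary w - q = ((w.length : ℝ)⁻¹) • (w.map (fun p => p - q)).sum := by
    have h2 : ∀ w : List P, (w.map (fun p => p - q)).sum = w.sum - (w.length : ℝ) • q := by
      intro w
      induction w with
      | nil => simp
      | cons a w ih => simp only [List.map_cons, List.sum_cons, ih, List.length_cons]; push_cast
                       rw [add_smul, one_smul]; abel
    rw [h2, smul_sub, smul_smul, inv_mul_cancel₀ hlen.ne', one_smul]; rfl
  rw [dist_eq_norm, h1, norm_smul, norm_inv, Real.norm_natCast]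
  refine mul_le_mul_of_nonneg_left ?_ (by positivity)
  clear h1 hlen hw
  induction w with
  | nil => simp
  | cons a w ih =>
    simp only [List.map_cons, List.sum_cons]
    refine (norm_add_le _ _).trans (add_le_add ?_ ih)
    rw [dist_eq_norm]

theorem sum_dist_le {w : List P} {D : ℝ} (h : ∀ p ∈ w, ∀ q ∈ w, dist p q ≤ D) {q : P}
    (hq : q ∈ w) : (w.map (fun p => dist p q)).sum ≤ ((w.length : ℝ) - 1) * D := by
  obtain ⟨s, t, rfl⟩ := List.append_of_mem hq
  have aux : ∀ s : List P, (∀ p ∈ s, dist p q ≤ D) →
      (s.map (fun p => dist p q)).sum ≤ (s.length : ℝ) * D := by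
    intro s hs
    induction s with
    | nil => simp
    | cons a s ih =>
      simp only [List.map_cons, List.sum_cons, List.length_cons]
      have h1 := ih (fun p hp => hs p (List.mem_cons_of_mem _ hp))
      have h2 := hs a (by simp)
      push_cast
      linarith
  have h1 := aux s (fun p hp => h p (by simp [hp]) q hq)
  have h2 := aux t (fun p hp => h p (by simp [hp]) q hq)
  simp only [List.map_append, List.map_cons, List.sum_append, List.sum_cons, dist_self,
    List.length_append, List.length_cons]
  push_cast
  linarith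

theorem dist_bary_le {w : List P} {D : ℝ} (h : ∀ p ∈ w, ∀ q ∈ w, dist p q ≤ D) {q : P}
    (hq : q ∈ w) : dist (bary w) q ≤ (1 - ((w.length : ℝ))⁻¹) * D := by
  have hne : w ≠ [] := by rintro rfl; simp at hq
  have hlen : (0 : ℝ) < w.length := by
    have : 0 < w.length := List.length_pos_iff.mpr hne
    exact_mod_cast this
  refine (dist_bary_le_sum w hne q).trans ?_
  refine (mul_le_mul_of_nonneg_left (sum_dist_le h hq) (by positivity)).trans (le_of_eq ?_)
  field_simp

theorem mem_sub_dist {n : ℕ} {w : List P} (hn : w.length = n) {D : ℝ} (hD : 0 ≤ D)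
    (h : ∀ p ∈ w, ∀ q ∈ w, dist p q ≤ D) {x : List P} (hx : x ∈ sub bary n w) :
    ∀ p ∈ x, ∀ q ∈ x, dist p q ≤ (1 - ((n : ℝ))⁻¹) * D := by
  induction n generalizing w x with
  | zero => simp [sub] at hx; subst hx; simp
  | succ n ih =>
    have hx0 := hx
    simp only [sub, List.mem_map, List.mem_flatMap] at hx
    obtain ⟨v, ⟨w', hw', hv⟩, rfl⟩ := hx
    have h1 := mem_bd hw'
    have h2 := ih (w := w') (by omega) (fun p hp q hq => h p (h1.1.subset hp) q (h1.1.subset hq)) hv
    set r := (1 - (((n + 1 : ℕ) : ℝ))⁻¹) * D with hr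
    have hr0 : 0 ≤ r := by
      refine mul_nonneg ?_ hD
      have : (((n + 1 : ℕ) : ℝ))⁻¹ ≤ 1 := by
        apply inv_le_one_of_one_le₀
        push_cast
        have : (0 : ℝ) ≤ n := by positivity
        linarith
      linarith
    have hball : ∀ p ∈ w, p ∈ Metric.closedBall (bary w) r := by
      intro p hp
      rw [Metric.mem_closedBall, dist_comm]
      have := dist_bary_le h hp
      rwa [hn] at this
    have h3 : ∀ p ∈ v, dist (bary w) p ≤ r := by
      intro p hp
      have h4 := mem_sub_convex (convex_closedBall (bary w) r) (w := w') (n := n) (by omega)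
        (fun p hp => hball p (h1.1.subset hp)) hv p hp
      rw [Metric.mem_closedBall, dist_comm] at h4
      exact h4
    intro p hp q hq
    rcases List.mem_cons.mp hp with rfl | hp
    · rcases List.mem_cons.mp hq with rfl | hq
      · rw [dist_self]; exact hr0
      · exact h3 q hq
    · rcases List.mem_cons.mp hq with rfl | hq
      · rw [dist_comm]; exact h3 p hp
      · refine (h2 p hp q hq).trans ?_
        refine mul_le_mul_of_nonneg_right ?_ hD
        rcases Nat.eq_zero_or_pos n with rfl | hn0
        · exfalso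
          have := mem_sub_length _ hv
          have : v = [] := List.length_eq_zero_iff.mp this
          subst this; simp at hp
        · have : (((n + 1 : ℕ) : ℝ))⁻¹ ≤ ((n : ℝ))⁻¹ := by
            apply inv_anti₀
            · exact_mod_cast hn0
            · push_cast; linarith
          linarith

theorem mem_iter_convex {C : Set P} (hC : Convex ℝ C) {N n : ℕ} {w : List P} (hn : w.length = n)
    (h : ∀ p ∈ w, p ∈ C) {x : List P} (hx : x ∈ iter bary N n w) : ∀ p ∈ x, p ∈ C := by
  induction N generalizing w with
  | zero => simp [iter] at hx; subst hx; exact h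
  | succ N ih =>
    simp only [iter, List.mem_flatMap] at hx
    obtain ⟨v, hv, hx⟩ := hx
    exact ih (mem_sub_length _ hv) (mem_sub_convex hC hn h hv) hx

theorem mem_iter_dist {N n : ℕ} (hn0 : 1 ≤ n) {w : List P} (hn : w.length = n) {D : ℝ}
    (hD : 0 ≤ D) (h : ∀ p ∈ w, ∀ q ∈ w, dist p q ≤ D) {x : List P} (hx : x ∈ iter bary N n w) :
    ∀ p ∈ x, ∀ q ∈ x, dist p q ≤ (1 - ((n : ℝ))⁻¹) ^ N * D := by
  induction N generalizing w D with
  | zero => simp [iter] at hx; subst hx; simpa using h
  | succ N ih =>
    simp only [iter, List.mem_flatMap] at hx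
    obtain ⟨v, hv, hx⟩ := hx
    have h0 : 0 ≤ (1 - ((n : ℝ))⁻¹) := by
      have : ((n : ℝ))⁻¹ ≤ 1 := by
        apply inv_le_one_of_one_le₀
        exact_mod_cast hn0
      linarith
    have := ih (mem_sub_length _ hv) (mul_nonneg h0 hD) (mem_sub_dist hn hD h hv) hx
    intro p hp q hq
    rw [pow_succ, mul_assoc]
    exact this p hp q hq

theorem iter_singleton (N : ℕ) (p : P) : iter bary N 1 [p] = [[p]] := by
  induction N with
  | zero => simp [iter]
  | succ N ih =>
    have : sub bary 1 [p] = [[p]] := by simp [sub, bary_singleton]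
    simp [iter, this, ih]

end bary

section sign

variable {P : Type*}

/-- sign cochain -/
def Phi (b : ℕ → P → F2) : ℕ → List P → F2
  | _, [] => 0
  | k, [p] => b k p
  | k, p :: q :: l => (b k p + b k q) * Phi b (k + 1) (q :: l)

/-- sign change cochain -/
def WW (b : ℕ → P → F2) : ℕ → List P → F2
  | _, [] => 0
  | _, [_] => 1
  | k, p :: q :: l => (b k p + b k q) * WW b (k + 1) (q :: l)

theorem dl_Phi (b : ℕ → P → F2) (k : ℕ) (l : List P) (h : 2 ≤ l.length) :
    dl (Phi b k) l = WW b k l := by
  induction l generalizing k with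
  | nil => simp at h
  | cons p l ih =>
    rcases l with _ | ⟨q, l⟩
    · simp at h
    · rcases l with _ | ⟨r, l⟩
      · simp [Phi, WW, add_comm]
      · have IH := ih (k + 1) (by simp)
        rw [dl_cons] at IH ⊢
        rw [dl_cons]
        have e1 : (fun w => Phi b k (p :: q :: w))
            = fun w => (b k p + b k q) * Phi b (k + 1) (q :: w) := by
          funext w; rw [Phi]
        rw [e1, dl_mul_left]
        have e2 : Phi b k (q :: r :: l) = (b k q + b k r) * Phi b (k + 1) (r :: l) := by rw [Phi]
        have e3 : Phi b k (p :: r :: l) = (b k p + b k r) * Phi b (k + 1) (r :: l) := by rw [Phi]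
        have e4 : WW b k (p :: q :: r :: l) = (b k p + b k q) * WW b (k + 1) (q :: r :: l) := by
          rw [WW]
        rw [e2, e3, e4, ← IH]
        linear_combination self_add (b k r * Phi b (k + 1) (r :: l))

theorem WW_map {b : ℕ → P → F2} {T : P → P} {l : List P}
    (h : ∀ k, ∀ p ∈ l, b k (T p) = b k p + 1) (k : ℕ) : WW b k (l.map T) = WW b k l := by
  induction l generalizing k with
  | nil => rfl
  | cons p l ih =>
    rcases l with _ | ⟨q, l⟩
    · rfl
    · have IH := ih (fun k p hp => h k p (List.mem_cons_of_mem _ hp)) (k + 1)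
      simp only [List.map_cons] at IH ⊢
      rw [WW, WW, IH, h k p (by simp), h k q (by simp)]
      linear_combination (WW b (k + 1) (q :: l)) * self_add 1

theorem Phi_add_map {b : ℕ → P → F2} {T : P → P} {l : List P}
    (h : ∀ k, ∀ p ∈ l, b k (T p) = b k p + 1) (k : ℕ) :
    Phi b k l + Phi b k (l.map T) = WW b k l := by
  induction l generalizing k with
  | nil => simp [Phi, WW]
  | cons p l ih =>
    rcases l with _ | ⟨q, l⟩
    · simp only [List.map_cons, List.map_nil, Phi, WW]
      rw [h k p (by simp)]
      linear_combination self_add (b k p)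
    · have IH := ih (fun k p hp => h k p (List.mem_cons_of_mem _ hp)) (k + 1)
      simp only [List.map_cons] at IH ⊢
      rw [Phi, Phi, WW, ← IH, h k p (by simp), h k q (by simp)]
      linear_combination (Phi b (k + 1) (T q :: l.map T)) * self_add 1

theorem WW_eq_zero {b : ℕ → P → F2} {l : List P} {k j : ℕ} (hk : k ≤ j)
    (hj : j + 1 < k + l.length) (h : ∀ p ∈ l, ∀ q ∈ l, b j p = b j q) : WW b k l = 0 := by
  induction l generalizing k with
  | nil => rfl
  | cons p l ih =>
    rcases l with _ | ⟨q, l⟩
    · simp at hj; omega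
    · rw [WW]
      rcases Nat.eq_or_lt_of_le hk with rfl | hk
      · rw [h p (by simp) q (by simp), self_add, zero_mul]
      · rw [ih hk (by simp at hj ⊢; omega)
          (fun p hp q hq => h p (List.mem_cons_of_mem _ hp) q (List.mem_cons_of_mem _ hq)), mul_zero]

/-- tie breaking sign -/
noncomputable def tb {d : ℕ} (x : Fin d → ℝ) : F2 :=
  open Classical in if toLex x < 0 then 1 else 0

theorem tb_neg {d : ℕ} {x : Fin d → ℝ} (hx : x ≠ 0) : tb (-x) = tb x + 1 := by
  unfold tb
  have h1 : toLex (-x) = - toLex x := rfl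
  rw [h1]
  by_cases h : toLex x < 0
  · rw [if_pos h, if_neg]
    · decide
    · rw [neg_lt_zero]; exact not_lt.mpr h.le
  · rw [if_neg h, if_pos]
    · decide
    · have hx' : toLex x ≠ 0 := hx
      have h2 : 0 < toLex x := lt_of_le_of_ne (not_lt.mp h) (Ne.symm hx')
      exact neg_lt_zero.mpr h2

/-- sign of the `k`-th coordinate with tie breaking -/
noncomputable def bk {d : ℕ} (k : ℕ) (x : Fin d → ℝ) : F2 :=
  open Classical in
  if h : k < d then (if x ⟨k, h⟩ < 0 then 1 else if 0 < x ⟨k, h⟩ then 0 else tb x) else tb x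

theorem bk_neg {d : ℕ} (k : ℕ) {x : Fin d → ℝ} (hx : x ≠ 0) : bk k (-x) = bk k x + 1 := by
  unfold bk
  by_cases h : k < d
  · rw [dif_pos h, dif_pos h]
    simp only [Pi.neg_apply, neg_lt_zero, neg_pos]
    rcases lt_trichotomy (x ⟨k, h⟩) 0 with h1 | h1 | h1
    · have h2 : ¬ (0 < x ⟨k, h⟩) := not_lt.mpr h1.le
      simp only [h1, h2, if_true, if_false]; decide
    · simp only [h1, lt_irrefl, if_false]; exact tb_neg hx
    · have h2 : ¬ (x ⟨k, h⟩ < 0) := not_lt.mpr h1.le
      simp only [h1, h2, if_true, if_false]; decide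
  · rw [dif_neg h, dif_neg h]; exact tb_neg hx

theorem bk_eq {d : ℕ} {k : Fin d} {x y : Fin d → ℝ} {ε : ℝ} (hx : ε ≤ |x k|)
    (hxy : |y k - x k| < ε) : bk k y = bk k x := by
  unfold bk
  rw [dif_pos k.2, dif_pos k.2]
  simp only [Fin.eta]
  rcases abs_cases (x k) with ⟨h1, h2⟩ | ⟨h1, h2⟩
  · have hy : 0 < y k := by
      have := (abs_lt.mp hxy).1; linarith
    have hx' : 0 < x k := by
      have := abs_nonneg (y k - x k); linarith
    rw [if_neg (not_lt.mpr hy.le), if_pos hy, if_neg (not_lt.mpr hx'.le), if_pos hx']
  · have hy : y k < 0 := by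
      have := (abs_lt.mp hxy).2; linarith
    rw [if_pos hy, if_pos h2]

end sign

end Pool.Agent.Helper12.LC
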