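import Pool.Agent.Helper12.LChain

/-! cup products, prism operator, shuffle product on words over `ZMod 2` -/

namespace Pool.Agent.Helper12.LC

variable {X Y Z : Type*}

/-! ### cup product -/

/-- cup product: `φ` of degree `i` on the head, `ψ` on the tail -/
def cup : ℕ → (List X → F2) → (List X → F2) → List X → F2
  | _, _, _, [] => 0
  | 0, φ, ψ, a :: l => φ [a] * ψ (a :: l)
  | i + 1, φ, ψ, a :: l => cup i (fun w => φ (a :: w)) ψ l

@[simp] theorem cup_nil (i : ℕ) (φ ψ : List X → F2) : cup i φ ψ [] = 0 := by cases i <;> rfl
@[simp] theorem cup_zero_cons (φ ψ : List X → F2) (a : X) (l : List X) :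
    cup 0 φ ψ (a :: l) = φ [a] * ψ (a :: l) := rfl
@[simp] theorem cup_succ_cons (i : ℕ) (φ ψ : List X → F2) (a : X) (l : List X) :
    cup (i + 1) φ ψ (a :: l) = cup i (fun w => φ (a :: w)) ψ l := rfl

theorem cup_eq (i : ℕ) (φ ψ : List X → F2) (l : List X) (h : i < l.length) :
    cup i φ ψ l = φ (l.take (i + 1)) * ψ (l.drop i) := by
  induction l generalizing i φ with
  | nil => simp at h
  | cons a l ih =>
    cases i with
    | zero => simp
    | succ i =>
      simp only [cup_succ_cons, List.take_succ_cons, List.drop_succ_cons]
      rw [ih i _ (by simpa using h)]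

theorem cup_add_left (i : ℕ) (φ φ' ψ : List X → F2) (l : List X) :
    cup i (fun w => φ w + φ' w) ψ l = cup i φ ψ l + cup i φ' ψ l := by
  induction l generalizing i φ φ' with
  | nil => simp
  | cons a l ih =>
    cases i with
    | zero => simp [add_mul]
    | succ i => simp only [cup_succ_cons]; rw [ih]

theorem cup_add_right (i : ℕ) (φ ψ ψ' : List X → F2) (l : List X) :
    cup i φ (fun w => ψ w + ψ' w) l = cup i φ ψ l + cup i φ ψ' l := by
  induction l generalizing i φ with
  | nil => simp
  | cons a l ih =>
    cases i with
    | zero => simp [mul_add]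
    | succ i => simp only [cup_succ_cons]; rw [ih]

theorem cup_map (f : X → Y) (i : ℕ) (φ ψ : List Y → F2) (l : List X) :
    cup i φ ψ (l.map f) = cup i (fun w => φ (w.map f)) (fun w => ψ (w.map f)) l := by
  induction l generalizing i φ with
  | nil => simp
  | cons a l ih =>
    cases i with
    | zero => simp
    | succ i => simp only [List.map_cons, cup_succ_cons]; rw [ih]

/-- Leibniz rule -/
theorem dl_cup (i : ℕ) (φ ψ : List X → F2) (l : List X) (h : i + 2 ≤ l.length) :
    dl (cup i φ ψ) l = cup (i + 1) (dl φ) ψ l + cup i φ (dl ψ) l := by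
  induction i generalizing φ l with
  | zero =>
    rcases l with _ | ⟨a, _ | ⟨b, l⟩⟩
    · simp at h
    · simp at h
    · simp only [dl_cons, cup_zero_cons, cup_succ_cons, dl_nil, add_zero]
      rw [dl_mul_left]
      linear_combination (-1 : F2) * self_add (φ [a] * ψ (b :: l))
  | succ i ih =>
    rcases l with _ | ⟨a, l⟩
    · simp at h
    · simp only [dl_cons, cup_succ_cons]
      rw [ih _ l (by simpa using h), cup_add_left]
      ring

/-! ### evaluation of cup-i type words -/

/-- pairing of the `k`-switch diagonal of a word with `α ⊗ β` -/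
def ev : ℕ → (List X → F2) → (List X → F2) → List X → F2
  | 0, α, β, l => α l * β []
  | _ + 1, _, _, [] => 0
  | k + 1, α, β, v :: l => ev (k + 1) (fun w => α (v :: w)) β l
      + ev k (fun w => β (v :: w)) (fun w => α (v :: w)) l
termination_by k _ _ l => (l.length, k)

theorem ev_zero (α β : List X → F2) (l : List X) : ev 0 α β l = α l * β [] := by
  rw [ev]
@[simp] theorem ev_succ_nil (k : ℕ) (α β : List X → F2) : ev (k + 1) α β [] = 0 := by
  rw [ev]
theorem ev_succ_cons (k : ℕ) (α β : List X → F2) (v : X) (l : List X) :
    ev (k + 1) α β (v :: l) = ev (k + 1) (fun w => α (v :: w)) β l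
      + ev k (fun w => β (v :: w)) (fun w => α (v :: w)) l := by
  rw [ev]

theorem ev_congr {α α' β β' : List X → F2} {l : List X} (k : ℕ)
    (hα : ∀ w, w.Sublist l → α w = α' w) (hβ : ∀ w, w.Sublist l → β w = β' w) :
    ev k α β l = ev k α' β' l := by
  induction l generalizing k α β α' β' with
  | nil =>
    cases k with
    | zero => rw [ev_zero, ev_zero, hα [] (by simp), hβ [] (by simp)]
    | succ k => simp
  | cons v l ih =>
    cases k with
    | zero => rw [ev_zero, ev_zero, hα _ (List.Sublist.refl _), hβ [] (by simp)]
    | succ k =>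
      rw [ev_succ_cons, ev_succ_cons]
      congr 1
      · exact ih _ (fun w hw => hα _ (hw.cons_cons v)) (fun w hw => hβ _ (hw.cons v))
      · exact ih _ (fun w hw => hβ _ (hw.cons_cons v)) (fun w hw => hα _ (hw.cons_cons v))

theorem ev_add_left (k : ℕ) (α α' β : List X → F2) (l : List X) :
    ev k (fun w => α w + α' w) β l = ev k α β l + ev k α' β l ∧
    ev k β (fun w => α w + α' w) l = ev k β α l + ev k β α' l := by
  induction l generalizing k α α' β with
  | nil =>
    cases k with
    | zero => simp only [ev_zero]; constructor <;> ring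
    | succ k => simp
  | cons v l ih =>
    cases k with
    | zero => simp only [ev_zero]; constructor <;> ring
    | succ k =>
      simp only [ev_succ_cons]
      constructor
      · rw [(ih (k + 1) (fun w => α (v :: w)) (fun w => α' (v :: w)) β).1,
          (ih k (fun w => α (v :: w)) (fun w => α' (v :: w)) (fun w => β (v :: w))).2]
        ring
      · rw [(ih (k + 1) α α' (fun w => β (v :: w))).2,
          (ih k (fun w => α (v :: w)) (fun w => α' (v :: w)) (fun w => β (v :: w))).1]
        ring

theorem ev_zero_left (k : ℕ) (β : List X → F2) (l : List X) :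
    ev k (fun _ => 0) β l = 0 ∧ ev k β (fun _ => 0) l = 0 := by
  induction l generalizing k β with
  | nil =>
    cases k with
    | zero => simp [ev_zero]
    | succ k => simp
  | cons v l ih =>
    cases k with
    | zero => simp [ev_zero]
    | succ k =>
      simp only [ev_succ_cons]
      exact ⟨by rw [(ih _ _).1, (ih _ _).2, add_zero], by rw [(ih _ _).2, (ih _ _).1, add_zero]⟩

theorem ev_map (f : X → Y) (k : ℕ) (α β : List Y → F2) (l : List X) :
    ev k α β (l.map f) = ev k (fun w => α (w.map f)) (fun w => β (w.map f)) l := by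
  induction l generalizing k α β with
  | nil =>
    cases k with
    | zero => simp [ev_zero]
    | succ k => simp
  | cons v l ih =>
    cases k with
    | zero => simp [ev_zero]
    | succ k =>
      rw [List.map_cons, ev_succ_cons, ev_succ_cons, ih, ih]
      rfl

/-- coboundary formula, `k = 0` -/
theorem dl_ev_zero (α β : List X → F2) (l : List X) :
    dl (ev 0 α β) l = ev 0 (dl α) β l + ev 0 α (dl β) l := by
  have : (ev 0 α β) = fun w => β [] * α w := by funext w; rw [ev_zero]; ring
  rw [this, dl_mul_left, ev_zero, ev_zero, dl_nil]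
  ring

/-- coboundary formula -/
theorem dl_ev_succ (k : ℕ) (α β : List X → F2) (l : List X) :
    dl (ev (k + 1) α β) l = ev (k + 1) (dl α) β l + ev (k + 1) α (dl β) l
      + ev k α β l + ev k β α l := by
  induction l generalizing k α β with
  | nil =>
    cases k with
    | zero => simp only [dl_nil, ev_succ_nil, ev_zero]; linear_combination (-1 : F2) * self_add (α [] * β [])
    | succ k => simp
  | cons v l ih =>
    have e1 : (fun w => ev (k + 1) α β (v :: w)) = fun w => ev (k + 1) (fun w => α (v :: w)) β w
      + ev k (fun w => β (v :: w)) (fun w => α (v :: w)) w := by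
      funext w; rw [ev_succ_cons]
    have hα : (fun w => dl α (v :: w)) = fun w => α w + dl (fun w => α (v :: w)) w := by
      funext w; simp
    have hβ : (fun w => dl β (v :: w)) = fun w => β w + dl (fun w => β (v :: w)) w := by
      funext w; simp
    have e2 : ev (k + 1) (dl α) β (v :: l) = ev (k + 1) α β l
        + ev (k + 1) (dl (fun w => α (v :: w))) β l
        + ev k (fun w => β (v :: w)) α l
        + ev k (fun w => β (v :: w)) (dl (fun w => α (v :: w))) l := by
      rw [ev_succ_cons, hα, (ev_add_left (k+1) α _ β l).1, (ev_add_left k α _ _ l).2]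
      ring
    have e3 : ev (k + 1) α (dl β) (v :: l) = ev (k + 1) (fun w => α (v :: w)) (dl β) l
        + ev k β (fun w => α (v :: w)) l
        + ev k (dl (fun w => β (v :: w))) (fun w => α (v :: w)) l := by
      rw [ev_succ_cons, hβ, (ev_add_left k β _ _ l).1]
      ring
    rw [dl_cons, e1, dl_add, ih, e2, e3]
    cases k with
    | zero =>
      rw [dl_ev_zero]
      have e4 : ev 0 α β (v :: l) = ev 0 (fun w => α (v :: w)) β l := by
        rw [ev_zero, ev_zero]
      have e5 : ev 0 β α (v :: l) = ev 0 (fun w => β (v :: w)) α l := by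
        rw [ev_zero, ev_zero]
      rw [e4, e5]
      linear_combination (-1 : F2) * self_add (ev 0 (fun w => β (v :: w)) α l)
    | succ k =>
      rw [ih]
      have e4 : ev (k + 1) α β (v :: l) = ev (k + 1) (fun w => α (v :: w)) β l
        + ev k (fun w => β (v :: w)) (fun w => α (v :: w)) l := ev_succ_cons _ _ _ _ _
      have e5 : ev (k + 1) β α (v :: l) = ev (k + 1) (fun w => β (v :: w)) α l
        + ev k (fun w => α (v :: w)) (fun w => β (v :: w)) l := ev_succ_cons _ _ _ _ _
      rw [e4, e5]
      linear_combination (-1 : F2) * self_add (ev (k+1) (fun w => β (v :: w)) α l)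

/-- a word with two equal adjacent letters -/
def Degen (l : List X) : Prop := ∃ (a : X) (u v : List X), l = u ++ a :: a :: v

theorem Degen.cons {l : List X} (h : Degen l) (b : X) : Degen (b :: l) := by
  obtain ⟨a, u, v, rfl⟩ := h
  exact ⟨a, b :: u, v, rfl⟩

theorem degen_cons_cons (a : X) (l : List X) : Degen (a :: a :: l) := ⟨a, [], l, rfl⟩

theorem ev_degen {k : ℕ} {α β : List X → F2} (hα : ∀ w, Degen w → α w = 0)
    (hβ : ∀ w, Degen w → β w = 0) {l : List X} (hl : Degen l) : ev k α β l = 0 := by
  obtain ⟨a, u, v, rfl⟩ := hl
  induction u generalizing k α β with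
  | nil =>
    have hα' : (fun w => α (a :: a :: w)) = fun _ => 0 := by
      funext w; exact hα _ (degen_cons_cons _ _)
    have hβ' : (fun w => β (a :: a :: w)) = fun _ => 0 := by
      funext w; exact hβ _ (degen_cons_cons _ _)
    cases k with
    | zero => rw [ev_zero, List.nil_append, hα _ (degen_cons_cons _ _), zero_mul]
    | succ k =>
      rw [List.nil_append, ev_succ_cons, ev_succ_cons, hα', (ev_zero_left _ _ _).1, (ev_zero_left _ _ _).2]
      cases k with
      | zero =>
        rw [ev_zero, hβ _ (degen_cons_cons _ _)]; ring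
      | succ k =>
        rw [ev_succ_cons, hβ', (ev_zero_left _ _ _).1, (ev_zero_left _ _ _).2]; ring
  | cons b u ih =>
    cases k with
    | zero => rw [ev_zero, hα _ ⟨a, b :: u, v, rfl⟩, zero_mul]
    | succ k =>
      rw [List.cons_append, ev_succ_cons,
        ih (fun w hw => hα _ (hw.cons b)) hβ,
        ih (fun w hw => hβ _ (hw.cons b)) (fun w hw => hα _ (hw.cons b)), add_zero]

theorem ev_short {k : ℕ} {α β : List X → F2} {l : List X} (h : l.length < k) :
    ev k α β l = 0 := by
  induction l generalizing k α β with
  | nil =>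
    cases k with
    | zero => simp at h
    | succ k => simp
  | cons v l ih =>
    cases k with
    | zero => simp at h
    | succ k =>
      have : l.length < k := by simpa using h
      rw [ev_succ_cons, ih (by omega), ih this, add_zero]

theorem ev_full {α β : List X → F2} {l : List X} :
    ev l.length α β l = α l * β l := by
  induction l generalizing α β with
  | nil => simp [ev_zero]
  | cons v l ih =>
    rw [List.length_cons, ev_succ_cons, ev_short (by omega), ih, zero_add, mul_comm]

/-! ### prism operator for an idempotent-like map `r` -/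

/-- prism words -/
def prism (r : X → X) : List X → List (List X)
  | [] => []
  | a :: l => (r a :: a :: l) :: (prism r l).map (List.cons (r a))

/-- dual prism operator -/
def hh (r : X → X) (ψ : List X → F2) (l : List X) : F2 := pr (prism r l) ψ

@[simp] theorem hh_nil (r : X → X) (ψ : List X → F2) : hh r ψ [] = 0 := rfl
@[simp] theorem hh_cons (r : X → X) (ψ : List X → F2) (a : X) (l : List X) :
    hh r ψ (a :: l) = ψ (r a :: a :: l) + hh r (fun w => ψ (r a :: w)) l := by
  simp [hh, prism]

theorem hh_add (r : X → X) (ψ φ : List X → F2) (l : List X) :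
    hh r (fun w => ψ w + φ w) l = hh r ψ l + hh r φ l := pr_add _ _ _

theorem hh_zero (r : X → X) (l : List X) : hh r (fun _ => 0) l = 0 := pr_zero _

theorem hh_dl (r : X → X) (ψ : List X → F2) (l : List X) :
    hh r (dl ψ) l + dl (hh r ψ) l = ψ l + ψ (l.map r) := by
  induction l generalizing ψ with
  | nil => simp only [hh_nil, dl_nil, List.map_nil, add_zero]; exact (self_add _).symm
  | cons a l ih =>
    simp only [hh_cons, dl_cons]
    rw [hh_add, dl_add]
    have h := ih (fun v => ψ (r a :: v))
    simp only [List.map_cons]
    linear_combination h + self_add (hh r ψ l) + self_add (dl (fun w => ψ (r a :: a :: w)) l)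
      + self_add (ψ (r a :: l))

theorem hh_congr {r : X → X} {ψ φ : List X → F2} {l : List X}
    (h : ∀ w ∈ prism r l, ψ w = φ w) : hh r ψ l = hh r φ l := pr_congr h

theorem hh_map {r : X → X} {f : X → X} (hf : ∀ a, r (f a) = f (r a)) (ψ : List X → F2)
    (l : List X) : hh r ψ (l.map f) = hh r (fun w => ψ (w.map f)) l := by
  induction l generalizing ψ with
  | nil => simp
  | cons a l ih => simp only [List.map_cons, hh_cons, ih, hf]

end Pool.Agent.Helper12.LC
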