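import Pool.Agent.Helper12.LFace

/-! From `ZMod 2` acyclicity to rational acyclicity. -/

namespace Pool.Agent.Helper12.LC

open Finset
set_option linter.unusedSectionVars false

variable {V : Type*} [Fintype V] [LinearOrder V]

/-- sign of the vertex `v` in `insert v G` -/
def sg (R : Type*) [Ring R] (v : V) (G : Finset V) : R := (-1) ^ (G.filter (· < v)).card

/-- simplicial boundary -/
def bdR {R : Type*} [Ring R] (c : Finset V → R) (G : Finset V) : R :=
  ∑ v ∈ Gᶜ, sg R v G * c (insert v G)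

theorem sg_insert (R : Type*) [Ring R] {v w : V} {G : Finset V} (hw : w ∉ G) :
    sg R v (insert w G) = if w < v then - sg R v G else sg R v G := by
  unfold sg
  rw [Finset.filter_insert]
  by_cases h : w < v
  · rw [if_pos h, if_pos h, card_insert_of_notMem (by simp [hw]), pow_succ]; simp
  · rw [if_neg h, if_neg h]

theorem bdR_bdR {R : Type*} [CommRing R] (c : Finset V → R) (G : Finset V) :
    bdR (bdR c) G = 0 := by
  unfold bdR
  simp only [Finset.mul_sum]
  rw [Finset.sum_sigma']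
  refine Finset.sum_involution (fun p _ => ⟨p.2, p.1⟩) ?_ ?_ ?_ ?_
  · rintro ⟨v, w⟩ h
    simp only [mem_sigma, mem_compl, mem_insert, not_or] at h
    obtain ⟨hv, hwv, hw⟩ := h
    simp only
    rw [sg_insert R hv, sg_insert R hw, Finset.insert_comm]
    rcases lt_or_gt_of_ne hwv with h | h
    · rw [if_neg (not_lt.mpr h.le), if_pos h]; ring
    · rw [if_pos h, if_neg (not_lt.mpr h.le)]; ring
  · rintro ⟨v, w⟩ h _ heq
    simp only [mem_sigma, mem_compl, mem_insert, not_or] at h
    simp only [Sigma.mk.injEq] at heq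
    exact h.2.1 heq.1
  · rintro ⟨v, w⟩ h
    simp only [mem_sigma, mem_compl, mem_insert, not_or] at h ⊢
    exact ⟨h.2.2, fun h' => h.2.1 h'.symm, h.1⟩
  · rintro ⟨v, w⟩ h
    rfl

/-- acyclicity over a ring in degree `n` of a family of faces -/
def AcycR (R : Type*) [Ring R] (K : Finset (Finset V)) (n : ℕ) : Prop :=
  ∀ z : Finset V → R, (∀ F, ¬ (F ∈ K ∧ F.card = n + 1) → z F = 0) → (∀ G, bdR z G = 0) →
    ∃ e : Finset V → R, (∀ F, ¬ (F ∈ K ∧ F.card = n + 2) → e F = 0) ∧ ∀ G, bdR e G = z G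

theorem bdR_add {R : Type*} [CommRing R] (a b : Finset V → R) (G : Finset V) :
    bdR (a + b) G = bdR a G + bdR b G := by
  unfold bdR
  rw [← Finset.sum_add_distrib]
  exact Finset.sum_congr rfl fun v _ => by simp [mul_add]

theorem bdR_smul {R : Type*} [CommRing R] (k : R) (a : Finset V → R) (G : Finset V) :
    bdR (k • a) G = k * bdR a G := by
  unfold bdR
  rw [Finset.mul_sum]
  exact Finset.sum_congr rfl fun v _ => by simp; ring

theorem bdR_cast {R : Type*} [CommRing R] (a : Finset V → ℤ) (G : Finset V) :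
    bdR (fun F => ((a F : ℤ) : R)) G = ((bdR a G : ℤ) : R) := by
  unfold bdR sg
  push_cast
  rfl

theorem bdR_two (z : Finset V → F2) (G : Finset V) :
    bdR z G = ∑ v ∈ Gᶜ, z (insert v G) := by
  unfold bdR sg
  refine Finset.sum_congr rfl fun v _ => ?_
  have : (-1 : F2) = 1 := by decide
  rw [this, one_pow, one_mul]

theorem acycR_int_of_two {K : Finset (Finset V)} (hK : ∀ F ∈ K, ∀ G ⊆ F, G ∈ K) {n : ℕ}
    (h2 : Acyc2 K n)
    (z : Finset V → ℤ) (hz : ∀ F, ¬ (F ∈ K ∧ F.card = n + 1) → z F = 0)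
    (hz' : ∀ G, bdR z G = 0) :
    ∃ r : ℤ, r ≠ 0 ∧ ∃ e : Finset V → ℤ, (∀ F, ¬ (F ∈ K ∧ F.card = n + 2) → e F = 0) ∧
      ∀ G, bdR e G = r * z G := by
  classical
  let D : (Finset V → ℤ) →ₗ[ℤ] (Finset V → ℤ) :=
    { toFun := fun e G => bdR e G
      map_add' := fun a b => by funext G; exact bdR_add a b G
      map_smul' := fun k a => by funext G; simpa using bdR_smul k a G }
  let C : Submodule ℤ (Finset V → ℤ) :=
    { carrier := {e | ∀ F, ¬ (F ∈ K ∧ F.card = n + 2) → e F = 0}
      add_mem' := fun {a b} ha hb F hF => by simp [ha F hF, hb F hF]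
      zero_mem' := fun F _ => rfl
      smul_mem' := fun r a ha F hF => by simp [ha F hF] }
  let Z : Submodule ℤ (Finset V → ℤ) :=
    { carrier := {e | (∀ F, ¬ (F ∈ K ∧ F.card = n + 1) → e F = 0) ∧ ∀ G, bdR e G = 0}
      add_mem' := fun {a b} ha hb => ⟨fun F hF => by simp [ha.1 F hF, hb.1 F hF],
        fun G => by rw [bdR_add, ha.2 G, hb.2 G, add_zero]⟩
      zero_mem' := ⟨fun F _ => rfl, fun G => by unfold bdR; simp⟩
      smul_mem' := fun r a ha => ⟨fun F hF => by simp [ha.1 F hF],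
        fun G => by rw [bdR_smul, ha.2 G, mul_zero]⟩ }
  let B := C.map D
  have key : ∀ c ∈ Z, ∃ b ∈ B, ∃ c' ∈ Z, c = b + (2 : ℤ) • c' := by
    intro c hc
    obtain ⟨e2, he2, he2'⟩ := h2 (fun F => ((c F : ℤ) : F2))
      (fun F hF => by rw [hc.1 F hF]; simp)
      (fun G => by
        have h := bdR_two (fun F => ((c F : ℤ) : F2)) G
        rw [← h, bdR_cast, hc.2 G]; simp)
    let e : Finset V → ℤ := fun F => if e2 F = 1 then 1 else 0
    have hecast : ∀ F, ((e F : ℤ) : F2) = e2 F := by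
      intro F
      simp only [e]
      rcases (show e2 F = 0 ∨ e2 F = 1 by generalize e2 F = a; revert a; decide) with h | h
      · rw [h]; simp
      · rw [h]; simp
    have heC : e ∈ C := by
      intro F hF
      simp only [e, he2 F hF]
      decide
    have hdvd : ∀ G, (2 : ℤ) ∣ c G - bdR e G := by
      intro G
      have : (((c G - bdR e G : ℤ)) : F2) = 0 := by
        push_cast
        rw [← bdR_cast]
        simp only [hecast]
        have h3 := he2' G
        rw [← bdR_two] at h3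
        rw [h3, sub_self]
      exact (ZMod.intCast_zmod_eq_zero_iff_dvd _ 2).mp this
    choose c' hc' using hdvd
    have hcc : c = D e + (2 : ℤ) • c' := by
      funext G
      have := hc' G
      simp only [Pi.add_apply, Pi.smul_apply, smul_eq_mul]
      change c G = bdR e G + 2 * c' G
      linarith
    refine ⟨D e, ⟨e, heC, rfl⟩, c', ⟨?_, ?_⟩, hcc⟩
    · intro F hF
      have h3 := hc' F
      rw [hc.1 F hF] at h3
      have h4 : bdR e F = 0 := by
        unfold bdR
        refine Finset.sum_eq_zero fun v hv => ?_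
        have : ¬ (insert v F ∈ K ∧ (insert v F).card = n + 2) := by
          rintro ⟨h5, h6⟩
          rw [card_insert_of_notMem (by simpa using hv)] at h6
          exact hF ⟨hK _ h5 _ (Finset.subset_insert _ _), by omega⟩
        rw [heC _ this, mul_zero]
      rw [h4] at h3
      linarith
    · intro G
      have h3 : bdR c G = bdR (D e) G + 2 * bdR c' G := by
        conv_lhs => rw [hcc]
        rw [bdR_add, bdR_smul]
      rw [hc.2 G] at h3
      have h4 : bdR (D e) G = 0 := bdR_bdR e G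
      rw [h4] at h3
      linarith
  have hfg : (Z.map B.mkQ).FG := (IsNoetherian.noetherian Z).map _
  have hle : Z.map B.mkQ ≤ (Ideal.span {(2 : ℤ)}) • Z.map B.mkQ := by
    rintro _ ⟨c, hc, rfl⟩
    obtain ⟨b, hb, c', hc', hcc⟩ := key c hc
    have : B.mkQ c = (2 : ℤ) • B.mkQ c' := by
      rw [hcc, map_add, map_smul]
      have : B.mkQ b = 0 := by simpa using hb
      rw [this, zero_add]
    rw [this]
    exact Submodule.smul_mem_smul (Ideal.mem_span_singleton_self 2) ⟨c', hc', rfl⟩
  obtain ⟨r, hr1, hr2⟩ :=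
    Submodule.exists_sub_one_mem_and_smul_eq_zero_of_fg_of_le_smul _ _ hfg hle
  have hr0 : r ≠ 0 := by
    rintro rfl
    rw [Ideal.mem_span_singleton] at hr1
    norm_num at hr1
  have h5 := hr2 (B.mkQ z) ⟨z, ⟨hz, hz'⟩, rfl⟩
  rw [← map_smul] at h5
  have h6 : r • z ∈ B := by simpa using h5
  obtain ⟨e, he, he'⟩ := h6
  exact ⟨r, hr0, e, he, fun G => congrFun he' G⟩

theorem acycR_rat_of_two {K : Finset (Finset V)} (hK : ∀ F ∈ K, ∀ G ⊆ F, G ∈ K) {n : ℕ}
    (h2 : Acyc2 K n) : AcycR ℚ K n := by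
  intro z hz hz'
  -- clear denominators
  let d : ℤ := ∏ F : Finset V, ((z F).den : ℤ)
  have hd : d ≠ 0 := Finset.prod_ne_zero_iff.mpr fun F _ => by exact_mod_cast (z F).den_nz
  have hint : ∀ F, ∃ k : ℤ, (k : ℚ) = d * z F := by
    intro F
    refine ⟨(∏ G ∈ Finset.univ.erase F, ((z G).den : ℤ)) * (z F).num, ?_⟩
    have h1 : d = (∏ G ∈ Finset.univ.erase F, ((z G).den : ℤ)) * ((z F).den : ℤ) :=
      (Finset.prod_erase_mul _ _ (Finset.mem_univ F)).symm
    rw [h1]
    push_cast
    have h3 : (z F) * ((z F).den : ℚ) = (z F).num := Rat.mul_den_eq_num _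
    rw [← h3]; ring
  choose k hk using hint
  have hk' : (fun F => ((k F : ℤ) : ℚ)) = (d : ℚ) • z := by
    funext F; rw [hk]; rfl
  obtain ⟨r, hr, e, he, he'⟩ := acycR_int_of_two hK h2 k
    (fun F hF => by
      have h1 := hk F
      rw [hz F hF, mul_zero] at h1
      exact_mod_cast h1)
    (fun G => by
      have h1 : (((bdR k G : ℤ)) : ℚ) = 0 := by
        rw [← bdR_cast, hk', bdR_smul, hz' G, mul_zero]
      exact_mod_cast h1)
  refine ⟨((r * d : ℤ) : ℚ)⁻¹ • (fun F => ((e F : ℤ) : ℚ)), fun F hF => ?_, fun G => ?_⟩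
  · simp [he F hF]
  · rw [bdR_smul, bdR_cast, he' G]
    have hr' : (r : ℚ) ≠ 0 := by exact_mod_cast hr
    have hd' : (d : ℚ) ≠ 0 := by exact_mod_cast hd
    have h1 := hk G
    push_cast
    rw [h1]
    field_simp

end Pool.Agent.Helper12.LC
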