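import Pool.Agent.Helper12.LOps

/-! shuffle product on words over `ZMod 2` -/

namespace Pool.Agent.Helper12.LC

variable {X Y Z : Type*}

/-- shuffle product of two words -/
def ez : List X → List Y → List (List (X × Y))
  | [], _ => []
  | _ :: _, [] => []
  | a :: x, b :: y => (if x.isEmpty && y.isEmpty then [[(a, b)]] else [])
      ++ (ez x (b :: y) ++ ez (a :: x) y).map (List.cons (a, b))
termination_by x y => x.length + y.length

@[simp] theorem ez_nil_left (y : List Y) : ez ([] : List X) y = [] := by rw [ez]
@[simp] theorem ez_nil_right (x : List X) : ez x ([] : List Y) = [] := by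
  cases x <;> rw [ez]
theorem ez_cons_cons (a : X) (x : List X) (b : Y) (y : List Y) :
    ez (a :: x) (b :: y) = (if x.isEmpty && y.isEmpty then [[(a, b)]] else [])
      ++ (ez x (b :: y) ++ ez (a :: x) y).map (List.cons (a, b)) := by rw [ez]

theorem pr_ez_cons_cons (a : X) (x : List X) (b : Y) (y : List Y) (ψ : List (X × Y) → F2) :
    pr (ez (a :: x) (b :: y)) ψ = (if x.isEmpty && y.isEmpty then ψ [(a, b)] else 0)
      + pr (ez x (b :: y)) (fun l => ψ ((a, b) :: l))
      + pr (ez (a :: x) y) (fun l => ψ ((a, b) :: l)) := by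
  rw [ez_cons_cons]
  by_cases h : x.isEmpty && y.isEmpty
  · simp [h]; ring
  · simp [h]

theorem ez_swap (x : List X) (y : List Y) (ψ : List (Y × X) → F2) :
    pr (ez x y) (fun l => ψ (l.map Prod.swap)) = pr (ez y x) ψ := by
  induction hn : x.length + y.length using Nat.strong_induction_on generalizing x y ψ with
  | _ n ih =>
    rcases x with _ | ⟨a, x⟩
    · simp
    rcases y with _ | ⟨b, y⟩
    · simp
    rw [pr_ez_cons_cons, pr_ez_cons_cons]
    have h1 := ih (x.length + (b :: y).length) (by simp at hn ⊢; omega) x (b :: y)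
      (fun l => ψ ((b, a) :: l)) rfl
    have h2 := ih ((a :: x).length + y.length) (by simp at hn ⊢; omega) (a :: x) y
      (fun l => ψ ((b, a) :: l)) rfl
    simp only [List.map_cons, Prod.swap_prod_mk, List.map_nil] at h1 h2 ⊢
    rw [h1, h2, Bool.and_comm]
    ring

theorem ez_singleton_left (a : X) (y : List Y) (hy : y ≠ []) :
    ez [a] y = [y.map (fun b => (a, b))] := by
  induction y with
  | nil => exact absurd rfl hy
  | cons b y ih =>
    rw [ez_cons_cons]
    rcases y with _ | ⟨c, y⟩
    · simp
    · rw [ih (by simp)]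
      simp

theorem ez_singleton_right (x : List X) (b : Y) (hx : x ≠ []) :
    ez x [b] = [x.map (fun a => (a, b))] := by
  induction x with
  | nil => exact absurd rfl hx
  | cons a x ih =>
    rw [ez_cons_cons]
    rcases x with _ | ⟨c, x⟩
    · simp
    · rw [ih (by simp)]
      simp

theorem pr_ez_dl (x : List X) (y : List Y) (h : ¬ (x.length = 1 ∧ y.length = 1))
    (ψ : List (X × Y) → F2) :
    pr (ez x y) (dl ψ) = dl (fun x' => pr (ez x' y) ψ) x + dl (fun y' => pr (ez x y') ψ) y := by
  induction hn : x.length + y.length using Nat.strong_induction_on generalizing x y ψ with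
  | _ n ih =>
    rcases x with _ | ⟨a, x⟩
    · simp [dl_zero]
    rcases y with _ | ⟨b, y⟩
    · simp [dl_zero]
    by_cases hx : x.length = 1 ∧ y = []
    · obtain ⟨hx, rfl⟩ := hx
      obtain ⟨c, rfl⟩ := List.length_eq_one_iff.mp hx
      rw [ez_singleton_right _ _ (by simp)]
      simp [ez_singleton_right]
    by_cases hy : x = [] ∧ y.length = 1
    · obtain ⟨rfl, hy⟩ := hy
      obtain ⟨c, rfl⟩ := List.length_eq_one_iff.mp hy
      rw [ez_singleton_left _ _ (by simp)]
      simp [ez_singleton_left]
    have hxy : ¬ (x = [] ∧ y = []) := by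
      rintro ⟨rfl, rfl⟩; simp at h
    have hb : (x.isEmpty && y.isEmpty) = false := by
      rcases x with _ | ⟨c, x⟩
      · rcases y with _ | ⟨d, y⟩
        · simp at hxy
        · simp
      · simp
    have IH1 := ih (x.length + (b :: y).length) (by simp at hn ⊢; omega) x (b :: y)
      (by simpa using hx) (fun l => ψ ((a, b) :: l)) rfl
    have IH2 := ih ((a :: x).length + y.length) (by simp at hn ⊢; omega) (a :: x) y
      (by simpa using hy) (fun l => ψ ((a, b) :: l)) rfl
    rw [pr_ez_cons_cons, hb]
    simp only [dl_cons, pr_add] at IH1 IH2 ⊢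
    rw [IH1, IH2]
    have e1 : dl (fun w => pr (ez (a :: w) (b :: y)) ψ) x
        = dl (fun w => pr (ez w (b :: y)) (fun l => ψ ((a, b) :: l))) x
          + dl (fun w => pr (ez (a :: w) y) (fun l => ψ ((a, b) :: l))) x := by
      rw [← dl_add]
      refine dl_congr fun w _ hw => ?_
      rw [pr_ez_cons_cons]
      have : (w.isEmpty && y.isEmpty) = false := by
        rcases w with _ | ⟨c, w⟩
        · rcases y with _ | ⟨d, y⟩
          · exact absurd ⟨by simpa using hw.symm, rfl⟩ hx
          · simp
        · simp
      rw [this]; simp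
    have e2 : dl (fun w => pr (ez (a :: x) (b :: w)) ψ) y
        = dl (fun w => pr (ez x (b :: w)) (fun l => ψ ((a, b) :: l))) y
          + dl (fun w => pr (ez (a :: x) w) (fun l => ψ ((a, b) :: l))) y := by
      rw [← dl_add]
      refine dl_congr fun w _ hw => ?_
      rw [pr_ez_cons_cons]
      have : (x.isEmpty && w.isEmpty) = false := by
        rcases w with _ | ⟨c, w⟩
        · rcases x with _ | ⟨d, x⟩
          · exact absurd ⟨rfl, by simpa using hw.symm⟩ hy
          · simp
        · simp
      rw [this]; simp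
    rw [e1, e2]
    simp only [Bool.false_eq_true, if_false]
    linear_combination self_add (pr (ez x y) fun l => ψ ((a, b) :: l))

theorem mem_ez {x : List X} {y : List Y} {l : List (X × Y)} (h : l ∈ ez x y) :
    l.length + 1 = x.length + y.length ∧ (∀ p ∈ l, p.1 ∈ x ∧ p.2 ∈ y) := by
  induction hn : x.length + y.length using Nat.strong_induction_on generalizing x y l with
  | _ n ih =>
    rcases x with _ | ⟨a, x⟩
    · simp at h
    rcases y with _ | ⟨b, y⟩
    · simp at h
    rw [ez_cons_cons] at h
    simp only [List.mem_append, List.mem_map] at h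
    rcases h with h | ⟨w, h | h, rfl⟩
    · by_cases hb : x.isEmpty && y.isEmpty
      · simp only [hb, if_true, List.mem_singleton] at h
        subst h
        simp only [Bool.and_eq_true, List.isEmpty_iff] at hb
        obtain ⟨rfl, rfl⟩ := hb
        refine ⟨by simpa using hn, ?_⟩
        simp
      · simp [hb] at h
    · obtain ⟨h1, h2⟩ := ih (x.length + (b :: y).length) (by simp at hn ⊢; omega) h rfl
      refine ⟨by simp at hn h1 ⊢; omega, ?_⟩
      intro p hp
      rcases List.mem_cons.mp hp with rfl | hp
      · simp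
      · exact ⟨List.mem_cons_of_mem _ (h2 p hp).1, (h2 p hp).2⟩
    · obtain ⟨h1, h2⟩ := ih ((a :: x).length + y.length) (by simp at hn ⊢; omega) h rfl
      refine ⟨by simp at hn h1 ⊢; omega, ?_⟩
      intro p hp
      rcases List.mem_cons.mp hp with rfl | hp
      · simp
      · exact ⟨(h2 p hp).1, List.mem_cons_of_mem _ (h2 p hp).2⟩

theorem pairwise_ez {R : X → X → Prop} {S : Y → Y → Prop} (hR : ∀ a, R a a) (hS : ∀ b, S b b)
    {x : List X} {y : List Y} (hx : x.Pairwise R) (hy : y.Pairwise S)
    {l : List (X × Y)} (h : l ∈ ez x y) :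
    l.Pairwise (fun p q => R p.1 q.1 ∧ S p.2 q.2) := by
  induction hn : x.length + y.length using Nat.strong_induction_on generalizing x y l with
  | _ n ih =>
    rcases x with _ | ⟨a, x⟩
    · simp at h
    rcases y with _ | ⟨b, y⟩
    · simp at h
    rw [ez_cons_cons] at h
    simp only [List.mem_append, List.mem_map] at h
    rw [List.pairwise_cons] at hx hy
    rcases h with h | ⟨w, h | h, rfl⟩
    · by_cases hb : x.isEmpty && y.isEmpty
      · simp only [hb, if_true, List.mem_singleton] at h
        subst h
        simp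
      · simp [hb] at h
    · have h3 := ih (x.length + (b :: y).length) (by simp at hn ⊢; omega) hx.2
        (List.pairwise_cons.mpr hy) h rfl
      refine List.pairwise_cons.mpr ⟨fun p hp => ?_, h3⟩
      have h4 := (mem_ez h).2 p hp
      refine ⟨hx.1 _ h4.1, ?_⟩
      rcases List.mem_cons.mp h4.2 with h5 | h5
      · rw [h5]; exact hS b
      · exact hy.1 _ h5
    · have h3 := ih ((a :: x).length + y.length) (by simp at hn ⊢; omega)
        (List.pairwise_cons.mpr hx) hy.2 h rfl
      refine List.pairwise_cons.mpr ⟨fun p hp => ?_, h3⟩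
      have h4 := (mem_ez h).2 p hp
      refine ⟨?_, hy.1 _ h4.2⟩
      rcases List.mem_cons.mp h4.1 with h5 | h5
      · rw [h5]; exact hR a
      · exact hx.1 _ h5

theorem head_ez {x : List X} {b : Y} {y : List Y} {l : List (X × Y)} (h : l ∈ ez x (b :: y)) :
    ∃ t, l.map Prod.snd = b :: t := by
  rcases x with _ | ⟨a, x⟩
  · simp at h
  rw [ez_cons_cons] at h
  simp only [List.mem_append, List.mem_map] at h
  rcases h with h | ⟨w, _, rfl⟩
  · by_cases hb : x.isEmpty && y.isEmpty
    · simp only [hb, if_true, List.mem_singleton] at h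
      subst h
      exact ⟨[], rfl⟩
    · simp [hb] at h
  · exact ⟨w.map Prod.snd, rfl⟩

theorem degen_ez {a a' : X} {x : List X} {y : List Y} {l : List (X × Y)}
    (h : l ∈ ez (a :: a' :: x) y) : Degen (l.map Prod.snd) := by
  induction y generalizing l with
  | nil => simp at h
  | cons b y ih =>
    rw [ez_cons_cons] at h
    simp only [List.isEmpty_cons, Bool.false_and, Bool.false_eq_true, if_false, List.nil_append,
      List.mem_map, List.mem_append] at h
    obtain ⟨w, h | h, rfl⟩ := h
    · obtain ⟨t, ht⟩ := head_ez h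
      rw [List.map_cons, ht]
      exact degen_cons_cons b t
    · rw [List.map_cons]
      exact (ih h).cons b

theorem pr_ez_ev {a : List X → F2} {b : List Y → F2} (ha : ∀ w, Degen w → a w = 0)
    (hb : ∀ w, Degen w → b w = 0) {x : List X} {y : List Y} (hx : x ≠ []) (hy : y ≠ []) :
    pr (ez x y) (ev 1 (fun l => a (l.map Prod.fst)) (fun l => b (l.map Prod.snd))) = a x * b y := by
  induction hn : x.length + y.length using Nat.strong_induction_on generalizing x y a with
  | _ n ih =>
    rcases x with _ | ⟨a0, x⟩
    · exact absurd rfl hx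
    rcases y with _ | ⟨b0, y⟩
    · exact absurd rfl hy
    have key : ∀ l : List (X × Y), ev 1 (fun l => a (l.map Prod.fst)) (fun l => b (l.map Prod.snd))
        ((a0, b0) :: l) = ev 1 (fun l => a (a0 :: l.map Prod.fst)) (fun l => b (l.map Prod.snd)) l
          + b (b0 :: l.map Prod.snd) * a [a0] := by
      intro l
      rw [show (1 : ℕ) = 0 + 1 from rfl, ev_succ_cons, ev_zero]
      simp
    have ha' : ∀ w, Degen w → a (a0 :: w) = 0 := fun w hw => ha _ (hw.cons a0)
    rw [pr_ez_cons_cons]
    simp only [key, pr_add, pr_mul_right]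
    have t3 : pr (ez x (b0 :: y)) (fun l => b (b0 :: l.map Prod.snd)) = 0 := by
      refine pr_eq_zero fun l hl => ?_
      obtain ⟨t, ht⟩ := head_ez hl
      rw [ht]
      exact hb _ (degen_cons_cons _ _)
    rw [t3]
    rcases x with _ | ⟨a1, x⟩
    · rcases y with _ | ⟨b1, y⟩
      · simp only [List.isEmpty_nil, Bool.and_self, if_true, ez_nil_left, ez_nil_right, pr_nil]
        rw [show (1 : ℕ) = 0 + 1 from rfl, ev_succ_nil]
        simp; ring
      · have IH2 := ih ([a0].length + (b1 :: y).length) (by simp at hn ⊢; omega) (a := fun l => a (a0 :: l))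
          ha' (x := [a0]) (y := b1 :: y) (by simp) (by simp) rfl
        rw [IH2, ha _ (degen_cons_cons a0 [])]
        rw [ez_singleton_left _ _ (by simp)]
        simp [Function.comp_def]; ring
    · have IH1 := ih ((a1 :: x).length + (b0 :: y).length) (by simp at hn ⊢; omega)
        (a := fun l => a (a0 :: l)) ha' (x := a1 :: x) (y := b0 :: y) (by simp) (by simp) rfl
      rw [IH1]
      have t4 : pr (ez (a0 :: a1 :: x) y) (fun l => b (b0 :: l.map Prod.snd)) = 0 := by
        refine pr_eq_zero fun l hl => ?_
        exact hb _ ((degen_ez hl).cons b0)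
      rw [t4]
      have t5 : pr (ez (a0 :: a1 :: x) y)
          (ev 1 (fun l => a (a0 :: l.map Prod.fst)) (fun l => b (l.map Prod.snd))) = 0 := by
        rcases y with _ | ⟨b1, y⟩
        · simp
        · have IH2 := ih ((a0 :: a1 :: x).length + (b1 :: y).length) (by simp at hn ⊢; omega)
            (a := fun l => a (a0 :: l)) ha' (x := a0 :: a1 :: x) (y := b1 :: y) (by simp) (by simp) rfl
          rw [IH2, ha _ (degen_cons_cons a0 _), zero_mul]
      rw [t5]
      simp

end Pool.Agent.Helper12.LC
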