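import Pool.Agent.Helper12.LCore

/-! The tower argument. -/

namespace Pool.Agent.Helper12.LC

open Finset
set_option linter.unusedSectionVars false
set_option linter.unusedVariables false

variable {V : Type*} [Fintype V] [LinearOrder V] [Nonempty V]

section tower

variable {K : Finset (Finset V)} (hK : ∀ F ∈ K, ∀ G ⊆ F, G ∈ K)
variable {z u : Finset V → F2} {m : ℕ} (hm : 1 ≤ m)
variable (hz : ∀ F, ¬ (F ∈ K ∧ F.card = m + 1) → z F = 0)
variable (hu0 : ∀ F, ¬ (F ∈ K ∧ F.card = m + 1) → u F = 0)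
variable (hz' : ∀ G, ∑ v ∈ Gᶜ, z (insert v G) = 0)
variable (hu : ∀ C ∈ K, ∑ v ∈ C, u (C.erase v) = 0)
variable (φ : ℕ → List (PP V) → F2)

/-- extension by zero -/
noncomputable def ph (K : Finset (Finset V)) (m : ℕ) (φ : ℕ → List (PP V) → F2) (i : ℕ)
    (l : List (PP V)) : F2 :=
  open Classical in if i < m ∧ InE K l then φ i l else 0

/-- the chains `f_i` -/
noncomputable def FF (K : Finset (Finset V)) (m : ℕ) (z : Finset V → F2)
    (φ : ℕ → List (PP V) → F2) (i : ℕ) (ψ : List (PP V) → F2) : F2 :=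
  pr (Zc z m) (cup i (ph K m φ i) ψ)

/-- the chains `y_i` -/
noncomputable def YY (K : Finset (Finset V)) (m : ℕ) (z : Finset V → F2)
    (φ : ℕ → List (PP V) → F2) : ℕ → (List (PP V) → F2) → F2
  | 0, ψ => pr (Zc z m) ψ + FF K m z φ 0 (fun l => ψ l + ψ (sw l))
  | i + 1, ψ => FF K m z φ i (dl ψ) + FF K m z φ (i + 1) (fun l => ψ l + ψ (sw l))

theorem FF_add (i : ℕ) (ψ ψ' : List (PP V) → F2) :
    FF K m z φ i (fun l => ψ l + ψ' l) = FF K m z φ i ψ + FF K m z φ i ψ' := by
  unfold FF
  rw [← pr_add]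
  refine pr_congr fun l _ => ?_
  rw [cup_add_right]

theorem FF_congr {i : ℕ} (hi : i ≤ 2 * m) {ψ ψ' : List (PP V) → F2}
    (hK : ∀ F ∈ K, ∀ G ⊆ F, G ∈ K)
    (hz : ∀ F, ¬ (F ∈ K ∧ F.card = m + 1) → z F = 0)
    (h : ∀ l, GS K l → ψ l = ψ' l) : FF K m z φ i ψ = FF K m z φ i ψ' := by
  unfold FF
  refine pr_congr fun l hl => ?_
  obtain ⟨h1, h2⟩ := mem_Zc hK hz hl
  rw [cup_eq _ _ _ _ (by omega), cup_eq _ _ _ _ (by omega),
    h _ (h2.sublist (List.drop_sublist _ _))]

theorem FF_zero (i : ℕ) : FF K m z φ i (fun _ => 0) = 0 := by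
  have := FF_add (K := K) (m := m) (z := z) φ i (fun _ => 0) (fun _ => 0)
  simpa using this

theorem FF_large {i : ℕ} (hi : m ≤ i) (ψ : List (PP V) → F2) : FF K m z φ i ψ = 0 := by
  unfold FF
  refine pr_eq_zero fun l _ => ?_
  have : ph K m φ i = fun _ => 0 := by
    funext l; unfold ph; rw [if_neg]; rintro ⟨h, _⟩; omega
  rw [this]
  have h2 := cup_add_left i (fun _ => 0) (fun _ => 0) ψ l
  simpa using h2

theorem YY_add (i : ℕ) (ψ ψ' : List (PP V) → F2) :
    YY K m z φ i (fun l => ψ l + ψ' l) = YY K m z φ i ψ + YY K m z φ i ψ' := by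
  cases i with
  | zero =>
    simp only [YY]
    rw [pr_add]
    have : (fun l => ψ l + ψ' l + (ψ (sw l) + ψ' (sw l)))
        = fun l => (ψ l + ψ (sw l)) + (ψ' l + ψ' (sw l)) := by funext l; ring
    rw [this, FF_add]; ring
  | succ i =>
    simp only [YY]
    have : (fun l => ψ l + ψ' l + (ψ (sw l) + ψ' (sw l)))
        = fun l => (ψ l + ψ (sw l)) + (ψ' l + ψ' (sw l)) := by funext l; ring
    rw [this, FF_add]
    have h2 : dl (fun l => ψ l + ψ' l) = fun l => dl ψ l + dl ψ' l := by
      funext l; exact dl_add _ _ _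
    rw [h2, FF_add]; ring

theorem YY_zero (i : ℕ) : YY K m z φ i (fun _ => 0) = 0 := by
  have := YY_add (K := K) (m := m) (z := z) φ i (fun _ => 0) (fun _ => 0)
  simpa using this

theorem YY_mul (i : ℕ) (k : F2) (ψ : List (PP V) → F2) :
    YY K m z φ i (fun l => k * ψ l) = k * YY K m z φ i ψ := by
  rcases F2_cases k with rfl | rfl
  · simp [YY_zero]
  · simp

theorem YY_sum {ι : Type*} (s : Finset ι) (i : ℕ) (ψ : ι → List (PP V) → F2) :
    YY K m z φ i (fun l => ∑ j ∈ s, ψ j l) = ∑ j ∈ s, YY K m z φ i (ψ j) := by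
  classical
  induction s using Finset.induction_on with
  | empty => simp [YY_zero]
  | insert a s ha ih =>
    simp only [Finset.sum_insert ha]
    rw [YY_add, ih]

theorem YY_large (ψ : List (PP V) → F2) : YY K m z φ (m + 1) ψ = 0 := by
  simp only [YY]
  rw [FF_large φ le_rfl, FF_large φ (by omega), add_zero]

theorem dl_sw (ψ : List (PP V) → F2) (l : List (PP V)) :
    dl ψ (sw l) = dl (fun w => ψ (sw w)) l := dl_map _ _ _

include hK hm hz hz' in
theorem YY_dl (i : ℕ) (ψ : List (PP V) → F2) :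
    YY K m z φ i (dl ψ) = YY K m z φ (i + 1) (fun l => ψ l + ψ (sw l)) := by
  have h0 : FF K m z φ (i + 1) (fun l => ψ l + ψ (sw l) + (ψ (sw l) + ψ (sw (sw l)))) = 0 := by
    have : (fun l => ψ l + ψ (sw l) + (ψ (sw l) + ψ (sw (sw l)))) = fun _ => 0 := by
      funext l
      rw [sw_sw]
      linear_combination self_add (ψ l) + self_add (ψ (sw l))
    rw [this, FF_zero]
  have h1 : (fun l => dl ψ l + dl ψ (sw l)) = dl (fun l => ψ l + ψ (sw l)) := by
    funext l
    rw [dl_add, dl_sw]
  cases i with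
  | zero =>
    simp only [YY]
    rw [pr_Zc_dl hK hm hz hz', h0, h1]
    simp
  | succ i =>
    simp only [YY]
    have h2 : dl (dl ψ) = fun _ => 0 := by funext l; exact dl_dl ψ l
    rw [h2, FF_zero, h0, h1]
    simp

variable (h0 : ∀ l, GS K l → InE K l → l.length = 1 → φ 0 l + φ 0 (sw l) = 1)
variable (hi : ∀ i, i + 1 < m → ∀ l, GS K l → InE K l → l.length = i + 2 →
    φ (i + 1) l + φ (i + 1) (sw l) = dl (φ i) l)
variable (hlast : ∀ l, GS K l → InE K l → l.length = m + 1 → dl (φ (m - 1)) l = 0)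

/-- the transfer identity for the swap -/
theorem FF_sw (i : ℕ) (hi : i ≤ 2 * m) (hK : ∀ F ∈ K, ∀ G ⊆ F, G ∈ K)
    (hz : ∀ F, ¬ (F ∈ K ∧ F.card = m + 1) → z F = 0) (ψ : List (PP V) → F2) :
    FF K m z φ i (fun l => ψ l + ψ (sw l))
      = pr (Zc z m) (cup i (fun l => ph K m φ i l + ph K m φ i (sw l)) ψ) := by
  rw [FF_add]
  unfold FF
  have h1 : pr (Zc z m) (cup i (ph K m φ i) (fun l => ψ (sw l)))
      = pr (Zc z m) (cup i (fun l => ph K m φ i (sw l)) ψ) := by
    rw [← pr_Zc_sw z m (cup i (fun l => ph K m φ i (sw l)) ψ)]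
    refine pr_congr fun l _ => ?_
    rw [sw, cup_map]
    have : (fun w : List (PP V) => ph K m φ i (sw (w.map Prod.swap))) = ph K m φ i := by
      funext w
      exact congrArg _ (sw_sw w)
    rw [this]; rfl
  rw [h1, ← pr_add]
  refine pr_congr fun l _ => ?_
  rw [cup_add_left]

theorem ph_eq {i : ℕ} (him : i < m) {l : List (PP V)} (hl : InE K l) : ph K m φ i l = φ i l := by
  unfold ph; rw [if_pos ⟨him, hl⟩]

theorem ph_large {i : ℕ} (him : m ≤ i) (l : List (PP V)) : ph K m φ i l = 0 := by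
  unfold ph; rw [if_neg]; rintro ⟨h, _⟩; omega

theorem dl_ph {i : ℕ} (him : i < m) {l : List (PP V)} (hl : InE K l) :
    dl (ph K m φ i) l = dl (φ i) l :=
  dl_congr fun w hw _ => ph_eq φ him (hl.sublist hw)

include h0 hi hlast hm in
/-- the cochains `theta_i` vanish on far words -/
theorem theta_succ {i : ℕ} (him : i + 1 ≤ m) {l : List (PP V)} (hg : GS K l) (hE : InE K l)
    (hlen : l.length = i + 2) :
    dl (ph K m φ i) l + (ph K m φ (i + 1) l + ph K m φ (i + 1) (sw l)) = 0 := by
  rw [dl_ph φ (by omega) hE]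
  by_cases h : i + 1 < m
  · rw [ph_eq φ h hE, ph_eq φ h hE.sw, hi i h l hg hE hlen, self_add]
  · have : m = i + 1 := by omega
    subst this
    rw [ph_large φ le_rfl, ph_large φ le_rfl]
    have := hlast l hg hE hlen
    simp only [Nat.add_sub_cancel] at this
    rw [this]; simp

theorem dichotomy (hK : ∀ F ∈ K, ∀ G ⊆ F, G ∈ K) {l : List (PP V)} (hg : GS K l) {i : ℕ}
    (hil : i < l.length) : InE K (l.take (i + 1)) ∨ InL K (l.drop i) := by
  by_cases h : (l[i]).1 ∪ (l[i]).2 ∈ K
  · right
    have hp : (l.drop i).Pairwise (fun p q => q.1 ⊆ p.1 ∧ q.2 ⊆ p.2) :=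
      hg.1.sublist (List.drop_sublist _ _)
    rw [List.drop_eq_getElem_cons hil] at hp ⊢
    intro p hp'
    rcases List.mem_cons.mp hp' with rfl | hp'
    · exact h
    · have h2 := (List.pairwise_cons.mp hp).1 p hp'
      exact hK _ h _ (union_subset_union h2.1 h2.2)
  · left
    have hp : (l.take (i + 1)).Pairwise (fun p q => q.1 ⊆ p.1 ∧ q.2 ⊆ p.2) :=
      hg.1.sublist (List.take_sublist _ _)
    rw [List.take_succ_eq_append_getElem hil] at hp ⊢
    intro p hp'
    rcases List.mem_append.mp hp' with hp' | hp'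
    · have h2 := (List.pairwise_append.mp hp).2.2 p hp' (l[i]) (by simp)
      intro h3
      exact h (hK _ h3 _ (union_subset_union h2.1 h2.2))
    · simp only [List.mem_singleton] at hp'
      subst hp'
      exact h

include hK hm hz hz' h0 hi hlast in
/-- `y_i` is supported on near words -/
theorem YY_supp {i : ℕ} (him : i ≤ m) {ψ : List (PP V) → F2}
    (h : ∀ l, GS K l → InL K l → l.length = 2 * m + 1 - i → ψ l = 0) :
    YY K m z φ i ψ = 0 := by
  cases i with
  | zero =>
    simp only [YY]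
    rw [FF_sw φ 0 (by omega) hK hz, ← pr_add]
    refine pr_eq_zero fun l hl => ?_
    obtain ⟨h1, h2⟩ := mem_Zc hK hz hl
    rw [cup_eq _ _ _ _ (by omega)]
    rcases dichotomy hK h2 (i := 0) (by omega) with hE | hL
    · have hg : GS K (l.take (0 + 1)) := h2.sublist (List.take_sublist _ _)
      have hE' := hE.sw
      rw [ph_eq φ (by omega) hE, ph_eq φ (by omega) hE', h0 _ hg hE (by simp; omega)]
      simp only [List.drop_zero, one_mul]
      exact self_add _
    · simp only [List.drop_zero] at hL ⊢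
      rw [h l h2 hL (by omega)]; simp
  | succ i =>
    simp only [YY]
    rw [FF_sw φ (i + 1) (by omega) hK hz]
    have e1 : FF K m z φ i (dl ψ) = pr (Zc z m) (cup (i + 1) (dl (ph K m φ i)) ψ) := by
      have h3 : pr (Zc z m) (dl (cup i (ph K m φ i) ψ)) = 0 := pr_Zc_dl hK hm hz hz' _
      have h4 : pr (Zc z m) (dl (cup i (ph K m φ i) ψ))
          = pr (Zc z m) (cup (i + 1) (dl (ph K m φ i)) ψ)
            + pr (Zc z m) (cup i (ph K m φ i) (dl ψ)) := by
        rw [← pr_add]
        refine pr_congr fun l hl => ?_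
        obtain ⟨h1, h2⟩ := mem_Zc hK hz hl
        exact dl_cup i _ _ l (by omega)
      rw [h3] at h4
      unfold FF
      linear_combination (-1 : F2) * h4
        - self_add (pr (Zc z m) (cup (i + 1) (dl (ph K m φ i)) ψ))
    rw [e1, ← pr_add]
    refine pr_eq_zero fun l hl => ?_
    obtain ⟨h1, h2⟩ := mem_Zc hK hz hl
    rw [← cup_add_left, cup_eq _ _ _ _ (by omega)]
    rcases dichotomy hK h2 (i := i + 1) (by omega) with hE | hL
    · have hg : GS K (l.take (i + 1 + 1)) := h2.sublist (List.take_sublist _ _)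
      rw [theta_succ hm φ h0 hi hlast him hg hE (by simp; omega), zero_mul]
    · rw [h _ (h2.sublist (List.drop_sublist _ _)) hL (by simp; omega), mul_zero]

include hK hm hz hz' h0 hi hlast in
theorem YY_congr {i : ℕ} (him : i ≤ m) {ψ ψ' : List (PP V) → F2}
    (h : ∀ l, GS K l → InL K l → l.length = 2 * m + 1 - i → ψ l = ψ' l) :
    YY K m z φ i ψ = YY K m z φ i ψ' := by
  have h1 : YY K m z φ i (fun l => ψ l + ψ' l) = 0 := by
    refine YY_supp hK hm hz hz' φ h0 hi hlast him fun l hg hL hlen => ?_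
    rw [h l hg hL hlen, self_add]
  rw [YY_add] at h1
  linear_combination h1 - self_add (YY K m z φ i ψ')

include hK hm hz hz' h0 hi hlast in
/-- the equivariant homotopy -/
theorem YY_homotopy {i : ℕ} (him : i ≤ m) (ψ : List (PP V) → F2) :
    YY K m z φ i ψ = YY K m z φ i (fun l => ψ (l.map rr)) + YY K m z φ i (hh rr (dl ψ))
      + YY K m z φ (i + 1) (hh rr (fun l => ψ l + ψ (sw l))) := by
  have h1 : YY K m z φ (i + 1) (hh rr (fun l => ψ l + ψ (sw l)))
      = YY K m z φ i (dl (hh rr ψ)) := by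
    rw [YY_dl hK hm hz hz']
    congr 1
    funext l
    rw [hh_add]
    congr 1
    rw [sw, hh_map (fun a => by rw [rr_swap, swap_rr])]
    rfl
  rw [h1]
  have h2 : YY K m z φ i (fun l => ψ l + ψ (l.map rr))
      = YY K m z φ i (fun l => hh rr (dl ψ) l + dl (hh rr ψ) l) := by
    congr 1
    funext l
    exact (hh_dl rr ψ l).symm
  rw [YY_add, YY_add] at h2
  linear_combination h2 - self_add (YY K m z φ i (fun l => ψ (l.map rr)))

include hK hz hu in
theorem sum_one (k : ℕ) (hk : k ≤ m) : ∑ i ∈ range (k + 1), YY K m z φ i (UU u i)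
    = pr (Zc z m) (UU u 0) + FF K m z φ k (fun l => UU u k l + UU u k (sw l)) := by
  induction k with
  | zero => simp [YY]
  | succ k ih =>
    rw [Finset.sum_range_succ, ih (by omega)]
    simp only [YY]
    have : FF K m z φ k (dl (UU u (k + 1))) = FF K m z φ k (fun l => UU u k l + UU u k (sw l)) :=
      FF_congr φ (by omega) hK hz fun l hl => dl_UU_succ hK hu hl k
    rw [this]
    linear_combination self_add (FF K m z φ k (fun l => UU u k l + UU u k (sw l)))

include hK hm hz hz' hu h0 hi hlast in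
theorem sum_two (hue : u ∅ = 0) (k : ℕ) (hk : k ≤ m) :
    ∑ i ∈ range (k + 1), YY K m z φ i (UU u i)
    = ∑ i ∈ range (k + 1), YY K m z φ i (fun l => UU u i (l.map rr))
      + YY K m z φ (k + 1) (hh rr (fun l => UU u k l + UU u k (sw l))) := by
  induction k with
  | zero =>
    simp only [zero_add, Finset.range_one, Finset.sum_singleton]
    rw [YY_homotopy hK hm hz hz' φ h0 hi hlast (by omega) (UU u 0)]
    have : YY K m z φ 0 (hh rr (dl (UU u 0))) = 0 := by
      refine YY_supp hK hm hz hz' φ h0 hi hlast (by omega) fun l hg hL _ => ?_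
      rw [hh_congr (φ := fun _ => 0) fun w hw => dl_UU_zero hK hu hue (hg.prism hL hw), hh_zero]
    rw [this, add_zero]
  | succ k ih =>
    rw [Finset.sum_range_succ, ih (by omega), Finset.sum_range_succ _ (k + 1),
      YY_homotopy hK hm hz hz' φ h0 hi hlast hk (UU u (k + 1))]
    have : YY K m z φ (k + 1) (hh rr (dl (UU u (k + 1))))
        = YY K m z φ (k + 1) (hh rr (fun l => UU u k l + UU u k (sw l))) := by
      refine YY_congr hK hm hz hz' φ h0 hi hlast hk fun l hg hL _ => ?_
      exact hh_congr fun w hw => dl_UU_succ hK hu (hg.prism hL hw) k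
    rw [this]
    linear_combination self_add (YY K m z φ (k + 1) (hh rr (fun l => UU u k l + UU u k (sw l))))

/-- the word of vertices attached to a word of pairs -/
noncomputable def xx (l : List (PP V)) : List V := (l.map (fun p => p.1 ∪ p.2)).map lam

theorem xx_sw (l : List (PP V)) : xx (sw l) = xx l := by
  simp [xx, sw, Function.comp_def, union_comm]

theorem al_rr (u : Finset V → F2) (l : List (PP V)) : al u (l.map rr) = uu u (xx l) := by
  simp [al, up, xx, rr, Function.comp_def]

theorem be_rr (u : Finset V → F2) (l : List (PP V)) : be u (l.map rr) = uu u (xx l) := by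
  simp [be, up, xx, rr, Function.comp_def]

theorem UU_rr (u : Finset V → F2) (i : ℕ) (l : List (PP V)) :
    UU u i (l.map rr) = ev (i + 1) (uu u) (uu u) (xx l) := by
  unfold UU xx
  rw [ev_map, ev_map, ev_map]
  exact ev_congr _ (fun w _ => by rw [al_rr]; rfl) (fun w _ => by rw [be_rr]; rfl)

include hK in
theorem xx_mem {l : List (PP V)} (hg : GS K l) (hL : InL K l) (hne : l ≠ []) :
    (xx l).toFinset ∈ K := by
  refine toFinset_lam_mem hK ?_ ?_ (by simpa using hne)
  · rw [List.pairwise_map]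
    exact hg.1.imp fun h => union_subset_union h.1 h.2
  · intro A hA
    obtain ⟨p, hp, rfl⟩ := List.mem_map.mp hA
    exact ⟨hL p hp, (hg.2 p hp).1.2.mono subset_union_left⟩

theorem xx_pairwise {l : List (PP V)} (hg : GS K l) : (xx l).Pairwise (fun a b => b ≤ a) := by
  unfold xx
  rw [List.map_map, List.pairwise_map]
  refine List.Pairwise.imp_of_mem ?_ hg.1
  intro p q _ hq h
  exact lam_mono ((hg.2 q hq).1.2.mono subset_union_left) (union_subset_union h.1 h.2)

theorem degen_of_pairwise {x : List V} (hx : x.Pairwise (fun a b => b ≤ a)) (hn : ¬ x.Nodup) :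
    Degen x := by
  induction x with
  | nil => simp at hn
  | cons a x ih =>
    rw [List.pairwise_cons] at hx
    by_cases h : x.Nodup
    · have ha : a ∈ x := by
        by_contra h'
        exact hn (List.nodup_cons.mpr ⟨h', h⟩)
      rcases x with _ | ⟨b, x⟩
      · simp at ha
      · have hba : b ≤ a := hx.1 b (by simp)
        have hab : a ≤ b := by
          rcases List.mem_cons.mp ha with rfl | ha
          · exact le_rfl
          · exact (List.pairwise_cons.mp hx.2).1 a ha
        have : a = b := le_antisymm hab hba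
        subst this
        exact degen_cons_cons a x
    · exact (ih hx.2 h).cons a

include hK hm hz hz' hu h0 hi hlast in
theorem YY_low (hue : u ∅ = 0) {i : ℕ} (him : i < m) (htop : Acyc2 K (2 * m - i)) :
    YY K m z φ i (fun l => UU u i (l.map rr)) = 0 := by
  set n := 2 * m - i with hn
  set Q : List V → F2 := ev (i + 1) (uu u) (uu u) with hQ
  let z' : Finset V → F2 := fun B => YY K m z φ i (fun l => chi B (xx l))
  have hz1 : ∀ F, ¬ (F ∈ K ∧ F.card = n + 1) → z' F = 0 := by
    intro F hF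
    refine YY_supp hK hm hz hz' φ h0 hi hlast him.le fun l hg hL hlen => ?_
    unfold chi
    rw [if_neg]
    rintro ⟨h1, h2⟩
    apply hF
    refine ⟨?_, ?_⟩
    · rw [← h2]
      refine xx_mem hK hg hL ?_
      rintro rfl
      simp at hlen
      omega
    · rw [← h2, List.toFinset_card_of_nodup h1]
      simp only [xx, List.length_map]
      omega
  have hz2 : ∀ G, ∑ v ∈ Gᶜ, z' (insert v G) = 0 := by
    intro G
    change ∑ v ∈ Gᶜ, YY K m z φ i (fun l => chi (insert v G) (xx l)) = 0
    rw [← YY_sum]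
    have h1 : (fun l : List (PP V) => ∑ v ∈ Gᶜ, chi (insert v G) (xx l))
        = dl (fun l => chi G (xx l)) := by
      funext l
      rw [← chi_dl]
      unfold xx
      rw [dl_map, dl_map]
    rw [h1, YY_dl hK hm hz hz']
    have h2 : (fun l : List (PP V) => chi G (xx l) + chi G (xx (sw l))) = fun _ => 0 := by
      funext l; rw [xx_sw, self_add]
    rw [h2, YY_zero]
  obtain ⟨e, he1, he2⟩ := htop z' hz1 hz2
  have h3 : YY K m z φ i (fun l => UU u i (l.map rr))
      = YY K m z φ i (fun l => ∑ B, Q (srt B) * chi B (xx l)) := by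
    refine YY_congr hK hm hz hz' φ h0 hi hlast him.le fun l hg hL hlen => ?_
    rw [UU_rr]
    by_cases hnd : (xx l).Nodup
    · rw [Finset.sum_eq_single (xx l).toFinset]
      · rw [← eq_srt hnd (xx_pairwise hg)]
        unfold chi
        simp [hnd, hQ]
      · intro B _ hB
        unfold chi
        rw [if_neg, mul_zero]
        rintro ⟨_, h⟩
        exact hB h.symm
      · simp
    · rw [ev_degen (fun w hw => uu_degen u hw) (fun w hw => uu_degen u hw)
        (degen_of_pairwise (xx_pairwise hg) hnd)]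
      refine (Finset.sum_eq_zero fun B _ => ?_).symm
      unfold chi
      rw [if_neg (fun h => hnd h.1), mul_zero]
  rw [h3, YY_sum]
  have h4 : ∀ B : Finset V, YY K m z φ i (fun l => Q (srt B) * chi B (xx l))
      = ∑ v ∈ Bᶜ, Q (srt B) * e (insert v B) := by
    intro B
    rw [YY_mul, ← Finset.mul_sum, he2 B]
  simp only [h4]
  rw [← sum_flag (fun C B => Q (srt B) * e C)]
  refine Finset.sum_eq_zero fun C _ => ?_
  rw [← Finset.sum_mul, ← dl_srt Q C]
  by_cases hC : C ∈ K ∧ C.card = n + 2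
  · have h5 : dl Q (srt C) = 0 := by
      rw [hQ, dl_ev_succ]
      have h6 : ∀ w : List V, w.Sublist (srt C) → dl (uu u) w = 0 := by
        intro w hw
        refine dl_uu hu (hK C hC.1 _ ?_)
        intro v hv
        rw [← srt_toFinset C]
        simp only [List.mem_toFinset] at hv ⊢
        exact hw.subset hv
      have h7 : ev (i + 1) (dl (uu u)) (uu u) (srt C) = 0 := by
        rw [ev_congr (α' := fun _ => 0) (β' := uu u) _ (fun w hw => h6 w hw)
          (fun _ _ => rfl), (ev_zero_left _ _ _).1]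
      have h8 : ev (i + 1) (uu u) (dl (uu u)) (srt C) = 0 := by
        rw [ev_congr (α' := uu u) (β' := fun _ => 0) _ (fun _ _ => rfl)
          (fun w hw => h6 w hw), (ev_zero_left _ _ _).2]
      rw [h7, h8]
      linear_combination self_add (ev i (uu u) (uu u) (srt C))
    rw [h5, zero_mul]
  · rw [he1 C hC, mul_zero]

include hK hm hz hz' hu h0 hi hlast in
theorem YY_mid : YY K m z φ m (fun l => UU u m (l.map rr)) = 0 := by
  have h1 : YY K m z φ m (fun l => UU u m (l.map rr)) = YY K m z φ m (fun l => al u (l.map rr)) := by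
    refine YY_congr hK hm hz hz' φ h0 hi hlast le_rfl fun l hg hL hlen => ?_
    have hlen' : (xx l).length = m + 1 := by simp only [xx, List.length_map]; omega
    rw [UU_rr, al_rr, ← hlen', ev_full]
    rcases F2_cases (uu u (xx l)) with h | h <;> rw [h] <;> decide
  have h2 : YY K m z φ m (al u) = 0 := by
    obtain ⟨k, rfl⟩ : ∃ k, m = k + 1 := ⟨m - 1, by omega⟩
    simp only [YY]
    rw [FF_large φ le_rfl, add_zero,
      FF_congr φ (ψ' := fun _ => 0) (by omega) hK hz fun l hl => dl_al hK hu hl, FF_zero]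
  have h3 := YY_homotopy hK hm hz hz' φ h0 hi hlast le_rfl (al u)
  rw [h2, YY_large, add_zero] at h3
  have h4 : YY K m z φ m (hh rr (dl (al u))) = 0 := by
    refine YY_supp hK hm hz hz' φ h0 hi hlast le_rfl fun l hg hL _ => ?_
    rw [hh_congr (φ := fun _ => 0) fun w hw => dl_al hK hu (hg.prism hL hw), hh_zero]
  rw [h4, add_zero] at h3
  rw [h1, ← h3]

include hK hm hz hz' hu hu0 h0 hi hlast in
theorem pairing_zero (htop : ∀ n, m < n → Acyc2 K n) : ∑ B, u B * z B = 0 := by
  have hue : u ∅ = 0 := hu0 ∅ (by simp)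
  have h1 := sum_one hK hz hu φ m le_rfl
  rw [FF_large φ le_rfl, add_zero, pr_Zc_UU hK hz] at h1
  have h2 := sum_two hK hm hz hz' hu φ h0 hi hlast hue m le_rfl
  rw [YY_large, add_zero] at h2
  have h3 : ∑ i ∈ range (m + 1), YY K m z φ i (fun l => UU u i (l.map rr)) = 0 := by
    rw [Finset.sum_range_succ, YY_mid hK hm hz hz' hu φ h0 hi hlast, add_zero]
    refine Finset.sum_eq_zero fun i hi' => ?_
    have him : i < m := by simpa using hi'
    exact YY_low hK hm hz hz' hu φ h0 hi hlast hue him (htop _ (by omega))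
  rw [h3] at h2
  rw [h2] at h1
  rcases F2_cases (∑ B, u B * z B) with h | h
  · exact h
  · rw [h] at h1; exact absurd h1 (by decide)

end tower

/-- **Core theorem.** -/
theorem core {K : Finset (Finset V)} (hK : ∀ F ∈ K, ∀ G ⊆ F, G ∈ K) {m : ℕ} (hm : 1 ≤ m)
    (φ : ℕ → List (PP V) → F2)
    (h0 : ∀ l, GS K l → InE K l → l.length = 1 → φ 0 l + φ 0 (sw l) = 1)
    (hi : ∀ i, i + 1 < m → ∀ l, GS K l → InE K l → l.length = i + 2 →
      φ (i + 1) l + φ (i + 1) (sw l) = dl (φ i) l)
    (hlast : ∀ l, GS K l → InE K l → l.length = m + 1 → dl (φ (m - 1)) l = 0)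
    (htop : ∀ n, m < n → Acyc2 K n) : Acyc2 K m :=
  acyc2_of_pairing K hK m fun _ _ hz hu0 hz' hu =>
    pairing_zero hK hm hz hu0 hz' hu φ h0 hi hlast htop

end Pool.Agent.Helper12.LC
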